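import Pool.Agent.Lib.MP_78c6b1_al.Neg.Iface2

/-! The congruence of P. Hall modulo `p ^ 2 - 1` and its consequence `HallStmt`. -/

set_option autoImplicit false

namespace Pool.Agent.P78

open Function

/-- a permutation of a finite set all of whose periods are multiples of `d` -/
theorem hall_dvd_card {X : Type} [Finite X] (σ : Equiv.Perm X) (d : ℕ)
    (h : ∀ (x : X) (j : ℕ), (σ ^ j) x = x → d ∣ j) : d ∣ Nat.card X := by
  classical
  let := Fintype.ofFinite X
  rw [Nat.card_congr (MulAction.selfEquivSigmaOrbits' (Subgroup.zpowers σ) X)]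
  let : Fintype (MulAction.orbitRel.Quotient (Subgroup.zpowers σ) X) := Fintype.ofFinite _
  rw [Nat.card_sigma]
  refine Finset.dvd_sum fun ω _ => ?_
  induction ω using Quotient.inductionOn' with
  | h x =>
    have h1 : (MulAction.orbitRel.Quotient.orbit
        (Quotient.mk'' x : MulAction.orbitRel.Quotient (Subgroup.zpowers σ) X)) =
        MulAction.orbit (Subgroup.zpowers σ) x := MulAction.orbitRel.Quotient.orbit_mk x
    rw [h1]
    let : Fintype (MulAction.orbit (Subgroup.zpowers σ) x) := Fintype.ofFinite _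
    rw [Nat.card_eq_fintype_card, ← MulAction.minimalPeriod_eq_card]
    apply h x
    have h2 := Function.isPeriodicPt_minimalPeriod (fun y : X => σ • y) x
    have h3 : (fun y : X => σ • y) = ⇑σ := rfl
    rw [Function.IsPeriodicPt, Function.IsFixedPt, h3, ← Equiv.Perm.coe_pow] at h2
    exact h2

/-- an integer matrix whose reduction is a Singer cycle -/
theorem hall_singer (p : ℕ) [Fact p.Prime] :
    ∃ M : Matrix (Fin 2) (Fin 2) ℤ, ¬ (p : ℤ) ∣ M.det ∧
      ∀ j : ℕ, (p : ℤ) ∣ (M ^ j - 1).det → p ^ 2 - 1 ∣ j := by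
  classical
  let K := GaloisField p 2
  have hr : Module.finrank (ZMod p) K = 2 := GaloisField.finrank p (by norm_num)
  let b : Module.Basis (Fin 2) (ZMod p) K := Module.finBasisOfFinrankEq (ZMod p) K hr
  obtain ⟨g, hg⟩ := IsCyclic.exists_ofOrder_eq_natCard (α := Kˣ)
  have hc : Nat.card Kˣ = p ^ 2 - 1 := by
    rw [Nat.card_units, GaloisField.card p 2 (by norm_num)]
  let A := Algebra.leftMulMatrix b
  let φ := (Int.castRingHom (ZMod p)).mapMatrix (m := Fin 2)
  let M : Matrix (Fin 2) (Fin 2) ℤ := (A (g : K)).map fun z => ((ZMod.val z : ℕ) : ℤ)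
  have hM : φ M = A (g : K) := by
    ext i j
    simp [φ, M]
  have key : ∀ (B : Matrix (Fin 2) (Fin 2) ℤ) (u : K), φ B = A u → (p : ℤ) ∣ B.det → u = 0 := by
    intro B u hB hd
    by_contra hu
    have h1 : IsUnit (A u) := (IsUnit.mk0 u hu).map A
    rw [← hB, Matrix.isUnit_iff_isUnit_det, ← RingHom.map_det] at h1
    apply h1.ne_zero
    exact (ZMod.intCast_zmod_eq_zero_iff_dvd _ _).2 hd
  refine ⟨M, fun hd => g.ne_zero (key M _ hM hd), fun j hd => ?_⟩
  have h2 : φ (M ^ j - 1) = A ((g : K) ^ j - 1) := by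
    rw [map_sub, map_pow, hM, map_one, map_sub, map_pow, map_one]
  have h3 := key _ _ h2 hd
  rw [← hc, ← hg, orderOf_dvd_iff_pow_eq_one]
  apply Units.ext
  rw [Units.val_pow_eq_pow_val, Units.val_one]
  exact sub_eq_zero.1 h3

/-- precomposition with an integer matrix -/
def hallPre {G : Type} [Group G] (B : Matrix (Fin 2) (Fin 2) ℤ)
    (f : Multiplicative (Fin 2 → ℤ) →* G) : Multiplicative (Fin 2 → ℤ) →* G :=
  f.comp (AddMonoidHom.toMultiplicative (Matrix.mulVecLin B).toAddMonoidHom)

theorem hallPre_apply {G : Type} [Group G] (B : Matrix (Fin 2) (Fin 2) ℤ)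
    (f : Multiplicative (Fin 2 → ℤ) →* G) (v : Fin 2 → ℤ) :
    hallPre B f (Multiplicative.ofAdd v) = f (Multiplicative.ofAdd (B.mulVec v)) := rfl

theorem hallPre_inj (p : ℕ) [Fact p.Prime] {G : Type} [Group G] [Finite G] (hG : IsPGroup p G)
    (B : Matrix (Fin 2) (Fin 2) ℤ) (hB : ¬ (p : ℤ) ∣ B.det) :
    Function.Injective (hallPre (G := G) B) := by
  intro f g hfg
  obtain ⟨m, hm⟩ := IsPGroup.iff_card.1 hG
  have hco : (Nat.card G).Coprime B.det.natAbs := by
    rw [hm]
    apply Nat.Coprime.pow_left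
    rw [Nat.Prime.coprime_iff_not_dvd Fact.out]
    intro h
    exact hB (Int.natCast_dvd.2 h)
  refine MonoidHom.ext fun w => ?_
  obtain ⟨v, rfl⟩ := Multiplicative.ofAdd.surjective w
  have h1 := DFunLike.congr_fun hfg (Multiplicative.ofAdd (B.adjugate.mulVec v))
  rw [hallPre_apply, hallPre_apply, Matrix.mulVec_mulVec, Matrix.mul_adjugate,
    Matrix.smul_mulVec, Matrix.one_mulVec, ofAdd_zsmul, map_zpow, map_zpow] at h1
  apply (powCoprime hco).injective
  simp only [powCoprime_apply]
  rcases Int.natAbs_eq B.det with h | h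
  · rw [h, zpow_natCast, zpow_natCast] at h1
    exact h1
  · rw [h, zpow_neg, zpow_neg, inv_inj, zpow_natCast, zpow_natCast] at h1
    exact h1

/-- homomorphisms from the free abelian group of rank two are commuting pairs -/
noncomputable def hallEquiv (G : Type) [Group G] :
    (Multiplicative (Fin 2 → ℤ) →* G) ≃ {q : G × G // Commute q.1 q.2} :=
  Equiv.ofBijective
    (fun f => ⟨(f (Multiplicative.ofAdd (Pi.single 0 1)), f (Multiplicative.ofAdd (Pi.single 1 1))),
      (Commute.all _ _).map f⟩) (by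
    constructor
    · intro f g h
      have h0 : f (Multiplicative.ofAdd (Pi.single 0 1)) = g (Multiplicative.ofAdd (Pi.single 0 1)) :=
        congrArg (fun q => q.1.1) h
      have h1 : f (Multiplicative.ofAdd (Pi.single 1 1)) = g (Multiplicative.ofAdd (Pi.single 1 1)) :=
        congrArg (fun q => q.1.2) h
      refine MonoidHom.ext fun w => ?_
      obtain ⟨v, rfl⟩ := Multiplicative.ofAdd.surjective w
      have hv : v = v 0 • (Pi.single 0 1 : Fin 2 → ℤ) + v 1 • (Pi.single 1 1 : Fin 2 → ℤ) := by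
        ext i
        fin_cases i <;> simp
      rw [hv, ofAdd_add, ofAdd_zsmul, ofAdd_zsmul, map_mul, map_mul, map_zpow, map_zpow, map_zpow,
        map_zpow, h0, h1]
    · rintro ⟨⟨x, y⟩, hxy⟩
      have hxy' : Commute x y := hxy
      refine ⟨MonoidHom.mk' (fun w => x ^ (Multiplicative.toAdd w 0) * y ^ (Multiplicative.toAdd w 1))
        ?_, ?_⟩
      · intro a b
        simp only [toAdd_mul, Pi.add_apply, zpow_add]
        have := (hxy'.zpow_zpow (Multiplicative.toAdd b 0) (Multiplicative.toAdd a 1)).eq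
        rw [mul_assoc, mul_assoc, ← mul_assoc (x ^ _) (y ^ _) (y ^ _), this]
        simp only [mul_assoc]
      · apply Subtype.ext
        simp)

theorem hall_comm (p : ℕ) [Fact p.Prime] (G : Type) [Group G] [Finite G] (hG : IsPGroup p G) :
    Nat.card (ConjClasses G) * Nat.card G ≡ 1 [MOD p ^ 2 - 1] := by
  classical
  obtain ⟨M, hM, hj⟩ := hall_singer p
  rw [← card_comm_eq_card_conjClasses_mul_card, ← Nat.card_congr (hallEquiv G)]
  have : Finite (Multiplicative (Fin 2 → ℤ) →* G) := Finite.of_equiv _ (hallEquiv G).symm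
  have hinj := hallPre_inj p hG M hM
  have hone : ∀ B : Matrix (Fin 2) (Fin 2) ℤ, hallPre (G := G) B 1 = 1 := fun B => rfl
  let X := {f : Multiplicative (Fin 2 → ℤ) →* G // f ≠ 1}
  let T : X → X := fun f => ⟨hallPre M f.1, fun h => f.2 (hinj (h.trans (hone M).symm))⟩
  have hT : Function.Injective T := fun f g h => Subtype.ext (hinj (congrArg Subtype.val h))
  let σ : Equiv.Perm X := Equiv.ofBijective T (Finite.injective_iff_bijective.1 hT)
  have hσ : ∀ (j : ℕ) (f : X), ((σ ^ j) f).1 = hallPre (M ^ j) f.1 := by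
    intro j
    induction j with
    | zero =>
      intro f
      refine MonoidHom.ext fun w => ?_
      obtain ⟨v, rfl⟩ := Multiplicative.ofAdd.surjective w
      rw [hallPre_apply, pow_zero, pow_zero, Matrix.one_mulVec]
      rfl
    | succ j ih =>
      intro f
      rw [pow_succ', Equiv.Perm.mul_apply]
      show hallPre M ((σ ^ j) f).1 = _
      rw [ih]
      refine MonoidHom.ext fun w => ?_
      obtain ⟨v, rfl⟩ := Multiplicative.ofAdd.surjective w
      rw [hallPre_apply, hallPre_apply, hallPre_apply, Matrix.mulVec_mulVec, pow_succ]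
  have hd : p ^ 2 - 1 ∣ Nat.card X := by
    apply hall_dvd_card σ
    intro f j hf
    apply hj
    by_contra hn
    apply f.2
    apply hallPre_inj p hG _ hn
    rw [hone]
    refine MonoidHom.ext fun w => ?_
    obtain ⟨v, rfl⟩ := Multiplicative.ofAdd.surjective w
    have h1 := DFunLike.congr_fun ((hσ j f).symm.trans (congrArg Subtype.val hf))
      (Multiplicative.ofAdd v)
    rw [hallPre_apply] at h1
    rw [hallPre_apply, Matrix.sub_mulVec, Matrix.one_mulVec, ofAdd_sub, map_div, h1, div_self']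
    rfl
  have hc : Nat.card (Multiplicative (Fin 2 → ℤ) →* G) = Nat.card X + 1 := by
    rw [← Finite.card_option]
    exact Nat.card_congr (Equiv.optionSubtypeNe (1 : Multiplicative (Fin 2 → ℤ) →* G)).symm
  rw [hc]
  have := ((Nat.modEq_zero_iff_dvd).2 hd).add_right 1
  simpa using this

theorem hallStmt : HallStmt := by
  intro p _ G _ _ hG N _ hN
  classical
  have hp : 2 ≤ p := (Fact.out : p.Prime).two_le
  have hp2 : 1 < p ^ 2 := Nat.one_lt_pow (by norm_num) (by omega)
  have h1 := hall_comm p G hG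
  have h2 := hall_comm p (G ⧸ N) (hG.to_quotient N)
  have hc : Nat.card G = Nat.card (G ⧸ N) * p ^ 2 := by
    rw [← hN]
    exact Subgroup.card_eq_card_quotient_mul_card_subgroup N
  have hsq : p ^ 2 ≡ 1 [MOD p ^ 2 - 1] := ((Nat.modEq_iff_dvd' hp2.le).2 dvd_rfl).symm
  have h3 : Nat.card (ConjClasses G) * Nat.card (G ⧸ N) ≡ 1 [MOD p ^ 2 - 1] := by
    have := (hsq.mul_left (Nat.card (ConjClasses G) * Nat.card (G ⧸ N))).symm
    rw [mul_one, mul_assoc, ← hc] at this
    exact this.trans h1
  have h4 : Nat.card (ConjClasses (G ⧸ N)) ≡ Nat.card (ConjClasses G) [MOD p ^ 2 - 1] := by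
    have a := h3.mul_left (Nat.card (ConjClasses (G ⧸ N)))
    have b := h2.mul_left (Nat.card (ConjClasses G))
    rw [mul_one] at a b
    rw [mul_left_comm] at a
    exact a.symm.trans b
  have h5 : Nat.card (ConjClasses (G ⧸ N)) < Nat.card (ConjClasses G) := by
    let := Fintype.ofFinite (ConjClasses G)
    let := Fintype.ofFinite (ConjClasses (G ⧸ N))
    rw [Nat.card_eq_fintype_card, Nat.card_eq_fintype_card]
    apply Fintype.card_lt_of_surjective_not_injective (ConjClasses.map (QuotientGroup.mk' N))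
      (ConjClasses.map_surjective (QuotientGroup.mk'_surjective N))
    intro hi
    have : Nontrivial N := Finite.one_lt_card_iff_nontrivial.1 (hN ▸ hp2)
    obtain ⟨n, hn⟩ := exists_ne (1 : N)
    apply hn
    have h6 : ConjClasses.map (QuotientGroup.mk' N) (ConjClasses.mk (n : G)) =
        ConjClasses.map (QuotientGroup.mk' N) (ConjClasses.mk 1) := by
      show ConjClasses.mk (QuotientGroup.mk' N (n : G)) = ConjClasses.mk (QuotientGroup.mk' N 1)
      rw [map_one, QuotientGroup.mk'_apply, (QuotientGroup.eq_one_iff _).2 n.2]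
    have h7 := ConjClasses.mk_eq_mk_iff_isConj.1 (hi h6)
    exact Subtype.ext (isConj_one_left.1 h7)
  have h8 := Nat.le_of_dvd (by omega) ((Nat.modEq_iff_dvd' h5.le).1 h4)
  omega

end Pool.Agent.P78
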