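import Pool.Agent.Lib.MP_78c6b1_al.Short.Dens
import Pool.Agent.Lib.MP_78c6b1_al.Neg.LazEx
import Pool.Agent.Lib.MP_78c6b1_al.Neg.Iface2

/-! First jump of centralisers in a bounded abelian normal subgroup. -/

set_option autoImplicit false

namespace Pool.Agent.P78

lemma lcs_bot (p : ℕ) [hp : Fact p.Prime] {G : Type*} [Group G] [Finite G] (hG : IsPGroup p G)
    {m : ℕ} (hm : Nat.card G ≤ p ^ m) : (⊤ : Subgroup G).lowerCentralSeries m = ⊥ := by
  obtain ⟨n, hn⟩ := Subgroup.nilpotent_iff_lowerCentralSeries.1 hG.isNilpotent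
  obtain ⟨K, hK⟩ := IsPGroup.iff_card.1 hG
  have key : ∀ i, (⊤ : Subgroup G).lowerCentralSeries i = ⊥ ∨
      Nat.card ((⊤ : Subgroup G).lowerCentralSeries i) * p ^ i ≤ Nat.card G := by
    intro i
    induction i with
    | zero => right; simp
    | succ i ih =>
      rcases ih with ih | ih
      · left; rw [Subgroup.lowerCentralSeries_succ, ih, Subgroup.commutator_bot_left]
      by_cases h : (⊤ : Subgroup G).lowerCentralSeries (i + 1) = (⊤ : Subgroup G).lowerCentralSeries i
      · left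
        have h1 : ∀ j, (⊤ : Subgroup G).lowerCentralSeries (i + j) =
            (⊤ : Subgroup G).lowerCentralSeries i := fun j => by
          induction j with
          | zero => rfl
          | succ j ihj => rw [← add_assoc, Subgroup.lowerCentralSeries_succ, ihj]; exact h
        rw [h, ← h1 n, eq_bot_iff, ← hn]
        exact Subgroup.lowerCentralSeries_antitone _ (by omega)
      · right
        have h1 := Subgroup.lowerCentralSeries_antitone (⊤ : Subgroup G) (Nat.le_succ i)
        obtain ⟨e, -, he⟩ := (Nat.dvd_prime_pow hp.out).1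
          (hK ▸ ((⊤ : Subgroup G).lowerCentralSeries i).card_subgroup_dvd_card)
        obtain ⟨e', -, he'⟩ := (Nat.dvd_prime_pow hp.out).1
          (hK ▸ ((⊤ : Subgroup G).lowerCentralSeries (i + 1)).card_subgroup_dvd_card)
        have h2 : p ^ e' < p ^ e := by
          rw [← he, ← he']
          exact not_le.1 fun h' => h (Subgroup.eq_of_le_of_card_ge h1 h')
        rw [Nat.pow_lt_pow_iff_right hp.out.one_lt] at h2
        refine le_trans ?_ ih
        rw [he, he', ← pow_add, ← pow_add]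
        exact Nat.pow_le_pow_right hp.out.pos (by omega)
  refine (key m).elim id fun h => ?_
  rw [← Subgroup.card_le_one_iff_eq_bot]
  exact Nat.le_of_mul_le_mul_right (by rw [one_mul]; exact h.trans hm) (pow_pos hp.out.pos m)

lemma lazard' (p : ℕ) [hp : Fact p.Prime] (G : Type) [Group G] [Finite G] (hG : IsPGroup p G)
    {m : ℕ} (hm : Nat.card G ≤ p ^ m) (hmp : m + 1 < p) :
    ∃ (L : Type) (_ : LieRing L), Nonempty (Laz G L) := by
  obtain ⟨L, _, Z, -⟩ := lazard p G hG (m + 1) (by omega) hmp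
    (lcs_bot p hG (hm.trans (Nat.pow_le_pow_right hp.out.pos (by omega))))
  exact ⟨L, _, ⟨Z⟩⟩

lemma card_pre_mul {T V : Type*} [Group T] [Group V] (π : T →* V)
    (hπ : Function.Surjective π) (P : V → Prop) :
    Nat.card {t // P (π t)} * Nat.card V = Nat.card {v // P v} * Nat.card T := by
  have key : ∀ P : V → Prop, Nat.card {t // P (π t)} = Nat.card {v // P v} * Nat.card π.ker := by
    intro P
    rw [← Nat.card_prod]
    choose σ hσ using hπ
    refine Nat.card_congr ⟨fun t => (⟨π t.1, t.2⟩, ⟨(σ (π t.1))⁻¹ * t.1, by simp [hσ]⟩),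
      fun x => ⟨σ x.1.1 * x.2.1, by rw [map_mul, hσ, x.2.2, mul_one]; exact x.1.2⟩,
      fun t => by simp, fun x => ?_⟩
    have := x.2.2
    rw [MonoidHom.mem_ker] at this
    ext <;> simp [hσ, this]
  have h := key fun _ => True
  simp only [Nat.card_congr (Equiv.subtypeUnivEquiv fun _ => trivial)] at h
  rw [key P, h]; ring

lemma Laz.card_log {G L : Type*} [Group G] [LieRing L] (Z : Laz G L) (H : Subgroup G) :
    Nat.card (Z.log H) = Nat.card H :=
  (Nat.card_congr (Z.ℓ.subtypeEquiv fun _ => Z.ℓ_mem_log.symm)).symm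

theorem fj_grp (m : ℕ) : ∃ C : ℕ, ∀ (p : ℕ) [Fact p.Prime], m + 1 < p →
    ∀ (G : Type) [Group G] [Finite G], IsPGroup p G → Nat.card G ≤ p ^ m →
      ∀ (A H : Subgroup G) [A.Normal], ∃ y₀ : H,
        (∀ y : H, Nat.card ↥(A ⊓ Subgroup.centralizer {y₀.1}) ≤
          Nat.card ↥(A ⊓ Subgroup.centralizer {y.1})) ∧
        p * Nat.card {y : H // Nat.card ↥(A ⊓ Subgroup.centralizer {y₀.1}) <
          Nat.card ↥(A ⊓ Subgroup.centralizer {y.1})} ≤ C * Nat.card H := by
  obtain ⟨C, hC⟩ := fj_gap m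
  refine ⟨C, fun p hp hmp G _ _ hG hm A H _ => ?_⟩
  obtain ⟨L, _, ⟨Z⟩⟩ := lazard' p G hG hm hmp
  have : Finite L := Finite.of_equiv _ Z.ℓ
  obtain ⟨k, hk⟩ := IsPGroup.iff_card.1 (hG.to_subgroup A)
  obtain ⟨l, hl⟩ := IsPGroup.iff_card.1 (hG.to_subgroup H)
  let β : Z.log H →+ Z.log A →+ Z.log A :=
    { toFun := fun v =>
        { toFun := fun a => ⟨⁅a.1, v.1⁆, Z.log_lie_normal a.2 _⟩
          map_zero' := Subtype.ext (zero_lie _)
          map_add' := fun a b => Subtype.ext (add_lie _ _ _) }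
      map_zero' := AddMonoidHom.ext fun a => Subtype.ext (lie_zero _)
      map_add' := fun v w => AddMonoidHom.ext fun a => Subtype.ext (lie_add _ _ _) }
  let e : H ≃ Z.log H := Z.ℓ.subtypeEquiv fun _ => Z.ℓ_mem_log.symm
  have he : ∀ y : H, Nat.card ↥(A ⊓ Subgroup.centralizer {y.1}) = Nat.card (0 + β (e y)).ker := by
    intro y
    rw [zero_add]
    refine Nat.card_congr ⟨fun a => ⟨⟨Z.ℓ a.1, Z.ℓ_mem_log.2 a.2.1⟩, Subtype.ext ?_⟩,
      fun a => ⟨Z.ℓ.symm a.1.1, a.1.2, ?_⟩, fun a => by simp, fun a => by simp⟩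
    · exact (Z.commute_iff _ _).1 (Subgroup.mem_centralizer_singleton_iff.1 a.2.2)
    · refine Subgroup.mem_centralizer_singleton_iff.2 ((Z.commute_iff _ _).2 ?_)
      rw [Equiv.apply_symm_apply]
      exact congrArg Subtype.val a.2
  obtain ⟨v₀, J, h1, h2, h3, -⟩ := hC p (by omega) ((Z.card_log A).trans hk)
    ((Z.card_log A).trans_le ((Nat.card_le_card_of_injective _ A.subtype_injective).trans hm))
    ((Z.card_log H).trans hl)
    ((Z.card_log H).trans_le ((Nat.card_le_card_of_injective _ H.subtype_injective).trans hm)) 0 β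
  obtain ⟨y₀, rfl⟩ := e.surjective v₀
  simp only [he]
  refine ⟨y₀, fun y => h1 _, ?_⟩
  rw [Z.card_log, ← h2] at h3
  exact le_of_eq_of_le (congrArg (p * ·) (Nat.card_congr (e.subtypeEquiv fun _ => Iff.rfl))) h3

lemma card_mulAut_le (p : ℕ) [hp : Fact p.Prime] {A : Type*} [CommGroup A] [Finite A]
    (hA : IsPGroup p A) {c : ℕ} (hc : Nat.card A ≤ p ^ c) : Nat.card (MulAut A) ≤ p ^ (c * c) := by
  obtain ⟨k, hk⟩ := IsPGroup.iff_card.1 hA
  obtain ⟨v, hv⟩ := exists_gens' p (A := Additive A) hk hc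
  refine (Nat.card_le_card_of_injective (fun (u : MulAut A) (i : Fin c) => u (v i).toMul)
    fun u u' h => ?_).trans ?_
  · ext a
    obtain ⟨t, ht⟩ := hv (Additive.ofMul a)
    have h1 : a = ∏ i, (v i).toMul ^ t i := by
      simpa [toMul_sum] using congrArg Additive.toMul ht
    rw [h1, map_prod, map_prod]
    exact Finset.prod_congr rfl fun i _ => by
      rw [map_zpow, map_zpow, show u (v i).toMul = u' (v i).toMul from congrFun h i]
  · rw [Nat.card_fun, Nat.card_fin, pow_mul]
    exact Nat.pow_le_pow_left hc _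

theorem fjStmt : FJStmt := by
  intro c
  obtain ⟨C, hC⟩ := fj_grp (c + c * c)
  refine ⟨C, c + c * c + 2, fun p hp hmp G _ _ hG A H _ hA hc => ?_⟩
  let φ : H →* MulAut A := MulAut.conjNormal.comp H.subtype
  let Γ := A ⋊[φ.range.subtype] φ.range
  have : Finite Γ := Finite.of_equiv _ SemidirectProduct.equivProd.symm
  have hU : IsPGroup p φ.range := (hG.to_subgroup H).of_surjective _ φ.rangeRestrict_surjective
  have hΓ : IsPGroup p Γ := by
    obtain ⟨k, hk⟩ := IsPGroup.iff_card.1 (hG.to_subgroup A)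
    obtain ⟨l, hl⟩ := IsPGroup.iff_card.1 hU
    exact IsPGroup.of_card (n := k + l) (by rw [SemidirectProduct.card, hk, hl, pow_add])
  have hc' : Nat.card Γ ≤ p ^ (c + c * c) := by
    let : CommGroup A :=
      { (inferInstance : Group A) with mul_comm := fun a b => Subtype.ext (hA _ a.2 _ b.2) }
    rw [SemidirectProduct.card, pow_add]
    exact Nat.mul_le_mul hc ((Nat.card_le_card_of_injective _ φ.range.subtype_injective).trans
      (card_mulAut_le p (hG.to_subgroup A) hc))
  let π : H →* Γ := SemidirectProduct.inr.comp φ.rangeRestrict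
  have hN : (SemidirectProduct.inl : A →* Γ).range.Normal := by
    rw [SemidirectProduct.range_inl_eq_ker_rightHom]; infer_instance
  obtain ⟨y₀, h1, h2⟩ := hC p (by omega) Γ hΓ hc' (SemidirectProduct.inl : A →* Γ).range π.range
  have he : ∀ y : H, Nat.card ↥(A ⊓ Subgroup.centralizer {y.1}) =
      Nat.card ↥((SemidirectProduct.inl : A →* Γ).range ⊓
        Subgroup.centralizer {(π.rangeRestrict y).1}) := by
    intro y
    have h : ∀ a : A, (SemidirectProduct.inl a : Γ) ∈ Subgroup.centralizer {(π.rangeRestrict y).1} ↔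
        a.1 ∈ Subgroup.centralizer {y.1} := fun a => by
      rw [Subgroup.mem_centralizer_singleton_iff, Subgroup.mem_centralizer_singleton_iff,
        eq_comm, ← mul_inv_eq_iff_eq_mul, eq_comm (a := a.1 * _), ← mul_inv_eq_iff_eq_mul]
      change SemidirectProduct.inr (φ.rangeRestrict y) * _ * (SemidirectProduct.inr
        (φ.rangeRestrict y))⁻¹ = _ ↔ _
      rw [← map_inv, ← SemidirectProduct.inl_aut, SemidirectProduct.inl_inj, Subtype.ext_iff]
      rfl
    refine Nat.card_congr (Equiv.ofBijective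
      (fun a => ⟨SemidirectProduct.inl ⟨a.1, a.2.1⟩, ⟨_, rfl⟩, (h _).2 a.2.2⟩) ⟨fun a b hab => ?_, ?_⟩)
    · have := SemidirectProduct.inl_injective (congrArg Subtype.val hab)
      exact Subtype.ext (congrArg (Subtype.val : A → G) this)
    · rintro ⟨_, ⟨a, rfl⟩, ha⟩
      exact ⟨⟨a.1, a.2, (h a).1 ha⟩, rfl⟩
  obtain ⟨y₀, rfl⟩ := π.rangeRestrict_surjective y₀
  refine ⟨y₀, y₀.2, fun y hy => ?_, ?_⟩
  · rw [he, he ⟨y, hy⟩]; exact h1 _
  · have h3 := card_pre_mul π.rangeRestrict π.rangeRestrict_surjective fun y =>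
      Nat.card ↥((SemidirectProduct.inl : A →* Γ).range ⊓
        Subgroup.centralizer {(π.rangeRestrict y₀).1}) <
      Nat.card ↥((SemidirectProduct.inl : A →* Γ).range ⊓ Subgroup.centralizer {y.1})
    rw [← he] at h2
    simp only [← he] at h3
    refine Nat.le_of_mul_le_mul_right ?_ (Nat.card_pos (α := π.range))
    rw [← Nat.card_congr (Equiv.subtypeSubtypeEquivSubtypeInter (· ∈ H) fun y =>
      Nat.card ↥(A ⊓ Subgroup.centralizer {y₀.1}) < Nat.card ↥(A ⊓ Subgroup.centralizer {y})),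
      mul_assoc]
    erw [h3]
    rw [← mul_assoc, mul_right_comm C]
    exact Nat.mul_le_mul_right _ h2

end Pool.Agent.P78
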