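import Pool.Agent.Lib.MP_78c6b1_al.Short.Node
import Pool.Agent.Lib.MP_78c6b1_al.Short.FJ

/-! Class numbers of `p`-groups of bounded length avoid the window between `C p^3` and `0.9 p^4`. -/

set_option autoImplicit false

namespace Pool.Agent.P78

open Finset

variable {L : Type} [LieRing L] [Finite L] {p : ℕ} [hp : Fact p.Prime]

omit [Finite L] in
lemma smul_char {K i : ℕ} (hL : Nat.card L = p ^ K) (h0 : i ≠ 0) (hi : i < p) (f : L →+ TT)
    (x : L) : (i • f) x = 0 ↔ f x = 0 := by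
  refine ⟨fun h => ?_, fun h => by simp [h]⟩
  have h1 : p ^ K • f x = 0 := by rw [← map_nsmul, ← hL, card_nsmul_eq_zero', map_zero]
  rw [← AddMonoid.addOrderOf_eq_one_iff]
  exact Nat.eq_one_of_dvd_coprimes ((Nat.coprime_of_lt_prime h0 hi hp.out).pow_left K).symm
    (addOrderOf_dvd_of_nsmul_eq_zero h) (addOrderOf_dvd_of_nsmul_eq_zero h1)

lemma Nn_smul {K i : ℕ} (hL : Nat.card L = p ^ K) (h0 : i ≠ 0) (hi : i < p)
    (S A : AddSubgroup L) (f : L →+ TT) : Nn S A (i • f) = Nn S A f := by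
  have h := smul_char hL h0 hi
  rw [Nn, Nn, Sg_transport (A := A) (f₁ := f) (f₂ := i • f) (i • ·)
    (fun g g' e => sub_eq_zero.1 (AddMonoidHom.ext fun x => (h _ x).1 (by
      rw [smul_sub, sub_eq_zero.2 e]; rfl)))
    (fun g => by simp only [← smul_sub, mem_perp, h]) fun g => by
      rw [show Rad S (i • g) = Rad S g from AddSubgroup.ext fun x => by simp only [mem_Rad, h]]]

theorem root_bound {G : Type} [Group G] (Z : Laz G L) {K k : ℕ} (hL : Nat.card L = p ^ K)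
    (h20 : 20 ≤ p) (hT : ∀ {A : AddSubgroup L} {f : L →+ TT}, Node ⊤ A f →
      Nn ⊤ A f ≤ k * (p : ℝ) ^ 2 ∨ 19 / 20 * (p : ℝ) ^ 3 ≤ Nn ⊤ A f) (d : ℕ) :
    ∀ {A : AddSubgroup L}, Node ⊤ A 0 → Nat.card L = p ^ d * Nat.card A →
      Nn ⊤ A 0 ≤ (1 + d * k) * (p : ℝ) ^ 3 ∨ 9 / 10 * (p : ℝ) ^ 4 ≤ Nn ⊤ A 0 := by
  have h1 : (20 : ℝ) ≤ p := by exact_mod_cast h20
  have hN : ∀ (A : AddSubgroup L) f, 0 ≤ Nn ⊤ A f := fun A f =>
    div_nonneg (sum_nonneg fun _ _ => by split_ifs <;> positivity) (by positivity)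
  induction d with
  | zero =>
    intro A h hA
    rw [h.leaf_Nn (by simpa using hA)]
    exact Or.inl (by simpa using one_le_pow₀ (by linarith))
  | succ d ih =>
    intro A h hA
    obtain ⟨b, hbS, hbA, hpb, hb⟩ := Z.exists_central hL h.sub fun h1 : ⊤ ≤ A => by
      have := Nat.one_lt_pow (n := d + 1) (by omega) hp.out.one_lt
      have := AddSubgroup.card_le_of_le h1
      have := Nat.card_pos (α := A)
      rw [AddSubgroup.card_top] at *
      nlinarith
    have hB : Nat.card (adj A b) = p * Nat.card A := card_ext hbA hpb fun _ => mem_adj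
    obtain ⟨g, hg, -, hsp⟩ := Sg_split hbA hpb
    have h2 : Nn ⊤ A 0 = Nn ⊤ (adj A b) 0 + (p - 1) * Nn ⊤ (adj A b) g := by
      obtain ⟨q, rfl⟩ := Nat.exists_eq_succ_of_ne_zero hp.out.ne_zero
      rw [show Nn ⊤ A 0 = ∑ i : Fin (q + 1), Nn ⊤ (adj A b) (0 + i.1 • g) by
        simp only [Nn, hsp, sum_div], Fin.sum_univ_succ]
      simp only [zero_add, fun i : Fin q => Nn_smul hL (i := i.succ.1) (by simp) i.succ.2]
      simp
    have h3 := fun g hg => h.branch hbS hb (fun _ _ => rfl) (g := g) hg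
    have h4 := hN (adj A b) 0
    have h5 := hN (adj A b) g
    have h6 : (0 : ℝ) ≤ p ^ 3 := by positivity
    rw [h2]
    rcases hT (h3 g (by simpa)) with h7 | h7
    · refine (ih (h3 0 (by simp)) (by rw [hA, hB]; ring)).imp (fun h8 => ?_) fun h8 => by nlinarith
      have : (0 : ℝ) ≤ k * p ^ 2 := by positivity
      push_cast
      nlinarith
    · right
      nlinarith

/-- the adjoint map as an additive homomorphism -/
def adh (x : L) : L →+ L := ⟨⟨fun y => ⁅x, y⁆, lie_zero x⟩, lie_add x⟩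

lemma Nn_root {G : Type} [Group G] (Z : Laz G L) :
    Nn (⊤ : AddSubgroup L) ⊥ 0 = Nat.card (ConjClasses G) := by
  classical
  have := Fintype.ofFinite L
  have h0 : (0 : ℝ) < Nat.card L := by exact_mod_cast Nat.card_pos
  have h1 : ∑ f : L →+ TT, Nat.card (Rad ⊤ f) = ∑ x : L, Nat.card (adh x).ker := by
    have h2 : ∀ x : L, Nat.card (adh x).ker = Nat.card (perp (adh x).range) := fun x =>
      (Nat.eq_of_mul_eq_mul_right Nat.card_pos (card_ker_mul (adh x))).trans (card_perp _).symm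
    simp only [h2, ← Nat.card_sigma]
    exact Nat.card_congr ⟨fun z => ⟨z.2.1, z.1, fun _ ⟨y, hy⟩ => hy ▸ z.2.2.2 y trivial⟩,
      fun z => ⟨z.2.1, z.1, trivial, fun y _ => z.2.2 _ ⟨y, rfl⟩⟩, fun _ => rfl, fun _ => rfl⟩
  have h2 : ∑ x : L, Nat.card (adh x).ker = Nat.card (ConjClasses G) * Nat.card L := by
    rw [← Nat.card_sigma, ← Nat.card_congr Z.ℓ, ← card_comm_eq_card_conjClasses_mul_card]
    exact Nat.card_congr (((Z.ℓ.prodCongr Z.ℓ).subtypeEquiv fun z => Z.commute_iff z.1 z.2).trans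
      (Equiv.subtypeProdEquivSigmaSubtype fun x y : L => ⁅x, y⁆ = 0)).symm
  rw [Nn, div_eq_iff h0.ne', ← Nat.cast_mul, ← h2, ← h1, Sg]
  simp [mem_perp]

theorem shortStmt : ShortStmt := by
  intro m
  obtain ⟨C, hC⟩ := node_Qp m
  obtain ⟨k, hk⟩ := tree_bound C (m + 1)
  refine ⟨1 + m * k, m + 20, fun p hp h0 G _ _ hG hm => ?_⟩
  obtain ⟨L, _, ⟨Z⟩⟩ := lazard' p G hG hm (by omega)
  obtain ⟨K, hK⟩ := IsPGroup.iff_card.1 hG
  have : Finite L := .of_equiv _ Z.ℓ
  rw [Nat.card_congr Z.ℓ] at hK hm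
  have h1 : K ≤ m := by rwa [hK, Nat.pow_le_pow_iff_right hp.out.one_lt] at hm
  have h2 := root_bound Z hK (k := k) (by omega) (fun {A f} h => by
    obtain ⟨d, hd, e⟩ := (Nat.dvd_prime_pow hp.out).1 (hK ▸ A.index_dvd_card)
    exact hk p hp.out.pos d (by omega) _ _ (node_tr Z hK (hC p (by omega) hK hm) d h
      (by rw [← e, A.index_mul_card, AddSubgroup.card_top]))) K (A := ⊥)
    ⟨bot_le, fun _ _ _ _ => trivial, by simp, fun _ _ _ _ => rfl⟩ (by simp [hK])
  rw [Nn_root Z] at h2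
  refine h2.imp (fun h => ?_) fun h => ?_
  · have h3 : (Nat.card (ConjClasses G) : ℝ) ≤ (1 + m * k) * (p : ℝ) ^ 3 := h.trans (by gcongr)
    exact_mod_cast h3
  · have h3 : 9 * (p : ℝ) ^ 4 ≤ 10 * Nat.card (ConjClasses G) := by linarith
    exact_mod_cast h3

end Pool.Agent.P78
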