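import Pool.Agent.Lib.MP_78c6b1_al.Short.Lin
import Pool.Agent.Lib.MP_78c6b1_al.Weil.GapStmt

/-! Density of the first jump set. -/

set_option autoImplicit false

namespace Pool.Agent.P78

open MvPolynomial

lemma card_pre {T V : Type*} [AddCommGroup T] [AddCommGroup V] [Finite T] (π : T →+ V)
    (hπ : Function.Surjective π) (P : V → Prop) :
    Nat.card {t // P (π t)} = Nat.card {v // P v} * Nat.card π.ker := by
  rw [← Nat.card_prod]
  choose σ hσ using hπ
  refine Nat.card_congr ⟨fun t => (⟨π t.1, t.2⟩, ⟨t.1 - σ (π t.1), by simp [hσ]⟩),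
    fun x => ⟨σ x.1.1 + x.2.1, by rw [map_add, hσ, x.2.2, add_zero]; exact x.1.2⟩,
    fun t => by simp, fun x => ?_⟩
  have := x.2.2
  rw [AddMonoidHom.mem_ker] at this
  ext <;> simp [hσ, this]

lemma card_pre' {T V : Type*} [AddCommGroup T] [AddCommGroup V] [Finite T] (π : T →+ V)
    (hπ : Function.Surjective π) (P : V → Prop) :
    Nat.card {t // P (π t)} * Nat.card V = Nat.card {v // P v} * Nat.card T := by
  have h := card_pre π hπ fun _ => True
  simp only [Nat.card_congr (Equiv.subtypeUnivEquiv fun _ => trivial)] at h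
  rw [card_pre π hπ P, h]; ring

lemma card_transfer {T V U : Type*} [AddCommGroup T] [AddCommGroup V] [AddCommGroup U] [Finite V]
    [Finite U] (φ : T →+ V) (ψ : T →+ U) (hφ : Function.Surjective φ)
    (hψ : Function.Surjective ψ) (P : V → Prop) (Q : U → Prop) (h : ∀ t, P (φ t) ↔ Q (ψ t)) :
    Nat.card {v // P v} * Nat.card U = Nat.card {u // Q u} * Nat.card V := by
  let R := (φ.prod ψ).range
  have h1 := card_pre' ((AddMonoidHom.fst V U).comp R.subtype)
    (fun v => by obtain ⟨t, rfl⟩ := hφ v; exact ⟨⟨_, t, rfl⟩, rfl⟩) P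
  have h2 := card_pre' ((AddMonoidHom.snd V U).comp R.subtype)
    (fun u => by obtain ⟨t, rfl⟩ := hψ u; exact ⟨⟨_, t, rfl⟩, rfl⟩) Q
  have h3 : Nat.card {r : R // P (((AddMonoidHom.fst V U).comp R.subtype) r)} =
      Nat.card {r : R // Q (((AddMonoidHom.snd V U).comp R.subtype) r)} :=
    Nat.card_congr (Equiv.subtypeEquivRight fun ⟨_, t, ht⟩ => by subst ht; exact h t)
  refine Nat.eq_of_mul_eq_mul_right (Nat.card_pos (α := R)) ?_
  rw [mul_right_comm, ← h1, mul_right_comm _ (Nat.card V) (Nat.card R), ← h2, h3]; ring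

lemma card_ker_mul {W A : Type*} [AddCommGroup W] [AddCommGroup A] (f : W →+ A) :
    Nat.card f.ker * Nat.card A = f.range.index * Nat.card W := by
  rw [← f.range.index_mul_card, ← f.ker.index_mul_card, AddSubgroup.index_ker]; ring

theorem fj_dens (p : ℕ) [hp : Fact p.Prime] {V W A : Type*} [AddCommGroup V] [AddCommGroup W]
    [AddCommGroup A] [Finite V] [Finite W] [Finite A] {k c l n : ℕ} (hA : Nat.card A = p ^ k)
    (hc : Nat.card A ≤ p ^ c) (hcp : c < p) (hV : Nat.card V = p ^ l) (hn : Nat.card V ≤ p ^ n)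
    (β₀ : W →+ A) (β : V →+ W →+ A) :
    ∃ (v₀ : V) (S : Set (MvPolynomial (Fin n) (ZMod p))),
      (∀ v, Nat.card (β₀ + β v₀).ker ≤ Nat.card (β₀ + β v).ker) ∧ (∀ s ∈ S, s.totalDegree ≤ c) ∧
      (∃ s ∈ S, s ≠ 0) ∧
      Nat.card {v // Nat.card (β₀ + β v₀).ker < Nat.card (β₀ + β v).ker} * p ^ n =
        Nat.card {x : Fin n → ZMod p // ∀ s ∈ S, eval x s = 0} * Nat.card V := by
  obtain ⟨g, hg⟩ := exists_gens' p hV hn
  have hσ : Function.Surjective (comb g) := fun a => (hg a).imp fun t ht => ht.symm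
  obtain ⟨S, t₀, h1, h2, h3⟩ := fj_lin p hA hc hcp β₀ fun k => β (g k)
  have h4 : ∀ t, comb (fun k => β (g k)) t = β (comb g t) := fun t => by
    simp only [comb_apply, map_sum, map_zsmul]
  simp only [h4] at h2 h3
  have h5 : ∀ f f' : W →+ A, Nat.card f.ker < Nat.card f'.ker ↔ f.range.index < f'.range.index :=
    fun f f' => by
      rw [← Nat.mul_lt_mul_right (Nat.card_pos (α := A)), card_ker_mul, card_ker_mul,
        Nat.mul_lt_mul_right Nat.card_pos]
  refine ⟨comb g t₀, S, fun v => ?_, h1, ?_, ?_⟩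
  · obtain ⟨t, rfl⟩ := hσ v
    exact not_lt.1 fun h => (h2 t).not_gt ((h5 _ _).1 h)
  · by_contra h
    push Not at h
    exact lt_irrefl _ ((h3 t₀).2 fun s hs => by rw [h s hs, map_zero])
  · have := card_transfer (comb g) ((Int.castAddHom (ZMod p)).compLeft (Fin n)) hσ
      (fun x => ⟨fun k => ((x k).cast : ℤ), funext fun k => by simp⟩)
      (fun v => Nat.card (β₀ + β (comb g t₀)).ker < Nat.card (β₀ + β v).ker)
      (fun x => ∀ s ∈ S, eval x s = 0) fun t => (h5 _ _).trans (h3 t)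
    rwa [Nat.card_fun, Nat.card_zmod, Nat.card_fin] at this

lemma zeros_le (p : ℕ) [hp : Fact p.Prime] {n c : ℕ} {S : Set (MvPolynomial (Fin n) (ZMod p))}
    (h : ∀ s ∈ S, s.totalDegree ≤ c) (h0 : ∃ s ∈ S, s ≠ 0) :
    p * Nat.card {x : Fin n → ZMod p // ∀ s ∈ S, eval x s = 0} ≤ c * p ^ n := by
  classical
  obtain ⟨s, hs, h0⟩ := h0
  have h1 := schwartz_zippel_totalDegree h0 Finset.univ
  have hp0 : (0 : ℚ≥0) < p := by exact_mod_cast hp.out.pos
  rw [Finset.card_univ, ZMod.card, Fintype.piFinset_univ,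
    div_le_div_iff₀ (pow_pos hp0 _) hp0] at h1
  have h2 : (Finset.univ.filter fun f : Fin n → ZMod p => eval f s = 0).card * p ≤
      s.totalDegree * p ^ n := by exact_mod_cast h1
  have h3 : Nat.card {x : Fin n → ZMod p // ∀ s ∈ S, eval x s = 0} ≤
      (Finset.univ.filter fun f : Fin n → ZMod p => eval f s = 0).card := by
    rw [Nat.card_eq_fintype_card, Fintype.card_subtype]
    exact Finset.card_le_card fun x hx => by
      simp only [Finset.mem_filter, Finset.mem_univ, true_and] at hx ⊢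
      exact hx s hs
  calc _ ≤ p * _ := Nat.mul_le_mul_left _ h3
    _ ≤ s.totalDegree * p ^ n := by rw [mul_comm]; exact h2
    _ ≤ _ := Nat.mul_le_mul_right _ (h s hs)

/-- the first jump set has density `O(1/p)`, and density `O(1/p^2)` or almost `1/p` -/
theorem fj_gap (m : ℕ) : ∃ C : ℕ, ∀ (p : ℕ) [Fact p.Prime], m < p →
    ∀ {V W A : Type} [AddCommGroup V] [AddCommGroup W] [AddCommGroup A] [Finite V] [Finite W]
      [Finite A] {k l : ℕ}, Nat.card A = p ^ k → Nat.card A ≤ p ^ m → Nat.card V = p ^ l →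
      Nat.card V ≤ p ^ m → ∀ (β₀ : W →+ A) (β : V →+ W →+ A), ∃ (v₀ : V) (J : ℕ),
      (∀ v, Nat.card (β₀ + β v₀).ker ≤ Nat.card (β₀ + β v).ker) ∧
      Nat.card {v // Nat.card (β₀ + β v₀).ker < Nat.card (β₀ + β v).ker} = J ∧
      p * J ≤ C * Nat.card V ∧
      (p ^ 2 * J ≤ C * Nat.card V ∨ (19 / 20 : ℝ) * Nat.card V ≤ p * J) := by
  obtain ⟨C, hC⟩ := gapStmt (m + 2) m (1 / 20) (by norm_num)
  refine ⟨C + m, fun p hp hm V W A _ _ _ _ _ _ k l hA hc hV hn β₀ β => ?_⟩
  have hp0 := hp.out.pos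
  obtain ⟨v₀, S, h1, h2, h3, h4⟩ := fj_dens p (n := m + 2) hA hc hm hV
    (hn.trans (Nat.pow_le_pow_right hp0 (by omega))) β₀ β
  refine ⟨v₀, _, h1, rfl, ?_, ?_⟩
  · refine Nat.le_of_mul_le_mul_right ?_ (pow_pos hp0 (m + 2))
    rw [mul_assoc, h4, ← mul_assoc, mul_right_comm (C + m)]
    exact Nat.mul_le_mul_right _ ((zeros_le p h2 h3).trans (Nat.mul_le_mul_right _ (by omega)))
  · refine (hC p S h2 m).imp (fun h => ?_) fun h => ?_
    · refine Nat.le_of_mul_le_mul_right ?_ (pow_pos hp0 (m + 2))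
      rw [mul_assoc, h4, ← mul_assoc, mul_right_comm (C + m)]
      refine Nat.mul_le_mul_right _ ((Nat.mul_le_mul_left _ h).trans ?_)
      rw [show p ^ 2 * (C * p ^ m) = C * p ^ (m + 2) by ring]
      exact Nat.mul_le_mul_right _ (by omega)
    · have hp1 : (0 : ℝ) < p := by exact_mod_cast hp0
      refine le_of_mul_le_mul_right ?_ (pow_pos hp1 (m + 2))
      have h5 := congrArg (Nat.cast : ℕ → ℝ) h4
      push_cast at h5
      rw [mul_assoc (p : ℝ), h5, show (19 / 20 : ℝ) * Nat.card V * p ^ (m + 2) =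
        p * ((1 - 1 / 20) * p ^ (m + 1) * Nat.card V) by ring]
      gcongr

end Pool.Agent.P78
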