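import Pool.Agent.Lib.MP_78c6b1_al.Short.Dens

/-! Characters of a finite Lie ring: annihilators, radicals and sums over cosets. -/

set_option autoImplicit false

namespace Pool.Agent.P78

open Finset

/-- the target group of characters -/
def TT := Additive ℂˣ

noncomputable instance : AddCommGroup TT := inferInstanceAs (AddCommGroup (Additive ℂˣ))

lemma card_dual (V : Type*) [AddCommGroup V] [Finite V] : Nat.card (V →+ TT) = Nat.card V := by
  have : NeZero ((Monoid.exponent (Multiplicative V) : ℕ) : ℂ) :=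
    ⟨Nat.cast_ne_zero.2 Monoid.exponent_ne_zero_of_finite⟩
  exact (Nat.card_congr (AddMonoidHom.toMultiplicativeLeft (α := V) (β := ℂˣ))).trans
    (CommGroup.card_monoidHom_of_hasEnoughRootsOfUnity (Multiplicative V) ℂ)

instance finite_dual (V : Type*) [AddCommGroup V] [Finite V] : Finite (V →+ TT) :=
  Nat.finite_of_card_ne_zero (by rw [card_dual]; exact Nat.card_pos.ne')

noncomputable instance fintype_dual (V : Type*) [AddCommGroup V] [Finite V] :
    Fintype (V →+ TT) := Fintype.ofFinite _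

lemma tors {p : ℕ} [hp : Fact p.Prime] {a b : TT} (ha : p • a = 0) (hb : p • b = 0)
    (h0 : b ≠ 0) : ∃ i < p, a = i • b := by
  let a' : ℂˣ := Additive.toMul a
  let b' : ℂˣ := Additive.toMul b
  have h1 : IsPrimitiveRoot (b' : ℂ) p := by
    rw [IsPrimitiveRoot.coe_units_iff, ← orderOf_eq_prime (x := b') hb h0]
    exact IsPrimitiveRoot.orderOf _
  have : NeZero p := ⟨hp.out.ne_zero⟩
  obtain ⟨i, hi, h⟩ := h1.eq_pow_of_pow_eq_one (ξ := (a' : ℂ))
    (by rw [← Units.val_pow_eq_pow_val, show a' ^ p = 1 from ha, Units.val_one])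
  exact ⟨i, hi, (Units.ext h : b' ^ i = a').symm⟩

section
variable {L : Type*} [AddCommGroup L]

lemma card_ext {p : ℕ} [hp : Fact p.Prime] [Finite L] {A B : AddSubgroup L} {b : L} (hb : b ∉ A)
    (hpb : p • b ∈ A) (hB : ∀ x, x ∈ B ↔ ∃ k : ℤ, x - k • b ∈ A) :
    Nat.card B = p * Nat.card A := by
  have h := card_pre (QuotientAddGroup.mk' A) (QuotientAddGroup.mk'_surjective A)
    (· ∈ AddSubgroup.zmultiples (QuotientAddGroup.mk' A b))
  rw [QuotientAddGroup.ker_mk', Nat.card_zmultiples, addOrderOf_eq_prime (p := p)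
    (x := QuotientAddGroup.mk' A b) (by rw [← map_nsmul]; exact (QuotientAddGroup.eq_zero_iff _).2 hpb)
    (fun h => hb ((QuotientAddGroup.eq_zero_iff _).1 h))] at h
  rw [← h]
  refine Nat.card_congr (Equiv.subtypeEquivRight fun x => (hB x).trans (exists_congr fun k => ?_))
  rw [← QuotientAddGroup.eq_zero_iff, ← QuotientAddGroup.mk'_apply, map_sub, map_zsmul, sub_eq_zero,
    eq_comm]

/-- the subgroup generated by `A` and `b` -/
def adj (A : AddSubgroup L) (b : L) : AddSubgroup L := A ⊔ AddSubgroup.zmultiples b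

lemma mem_adj {A : AddSubgroup L} {b x : L} : x ∈ adj A b ↔ ∃ k : ℤ, x - k • b ∈ A := by
  refine AddSubgroup.mem_sup.trans ⟨?_, ?_⟩
  · rintro ⟨y, hy, _, ⟨k, rfl⟩, rfl⟩
    exact ⟨k, by simpa using hy⟩
  · rintro ⟨k, hk⟩
    exact ⟨_, hk, _, ⟨k, rfl⟩, by simp⟩

/-- characters vanishing on `A` -/
def perp (A : AddSubgroup L) : AddSubgroup (L →+ TT) where
  carrier := {f | ∀ a ∈ A, f a = 0}
  add_mem' hf hg a ha := by simp [hf a ha, hg a ha]
  zero_mem' _ _ := rfl
  neg_mem' hf a ha := by simp [hf a ha]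

lemma mem_perp {A : AddSubgroup L} {f : L →+ TT} : f ∈ perp A ↔ ∀ a ∈ A, f a = 0 := Iff.rfl

lemma sub_mem_perp {A : AddSubgroup L} {f g : L →+ TT} :
    f - g ∈ perp A ↔ ∀ a ∈ A, f a = g a := by simp [mem_perp, sub_eq_zero]

lemma card_perp [Finite L] (A : AddSubgroup L) : Nat.card (perp A) = A.index := by
  rw [AddSubgroup.index, ← card_dual (L ⧸ A)]
  refine Nat.card_congr ⟨fun f => QuotientAddGroup.lift A f.1 f.2,
    fun f => ⟨f.comp (QuotientAddGroup.mk' A), fun a ha => ?_⟩, fun f => rfl, fun f => ?_⟩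
  · simp [(QuotientAddGroup.eq_zero_iff a).2 ha]
  · ext; rfl

lemma mem_perp_adj {A : AddSubgroup L} {b : L} {f : L →+ TT} :
    f ∈ perp (adj A b) ↔ f ∈ perp A ∧ f b = 0 := by
  refine ⟨fun h => ⟨fun a ha => h a (mem_adj.2 ⟨0, by simpa⟩), h b (mem_adj.2 ⟨1, by simp⟩)⟩,
    fun h x hx => ?_⟩
  obtain ⟨k, hk⟩ := mem_adj.1 hx
  simpa [h.2] using h.1 _ hk

variable [Finite L]

open Classical in
/-- sum over the characters that agree with `f₀` on `A` -/
noncomputable def Sg (A : AddSubgroup L) (f₀ : L →+ TT) (F : (L →+ TT) → ℝ) : ℝ :=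
  ∑ f, if f - f₀ ∈ perp A then F f else 0

lemma Sg_congr {A : AddSubgroup L} {f₀ : L →+ TT} {F F' : (L →+ TT) → ℝ}
    (h : ∀ f, f - f₀ ∈ perp A → F f = F' f) : Sg A f₀ F = Sg A f₀ F' :=
  sum_congr rfl fun f _ => by split_ifs with h'; exacts [h f h', rfl]

lemma Sg_mul (A : AddSubgroup L) (f₀ : L →+ TT) (F : (L →+ TT) → ℝ) (c : ℝ) :
    Sg A f₀ (fun f => c * F f) = c * Sg A f₀ F := by
  simp [Sg, mul_sum]

lemma Sg_transport {A : AddSubgroup L} {f₁ f₂ : L →+ TT} {F : (L →+ TT) → ℝ}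
    (e : (L →+ TT) → L →+ TT) (he : Function.Injective e)
    (h : ∀ f, f - f₁ ∈ perp A ↔ e f - f₂ ∈ perp A) (h' : ∀ f, F (e f) = F f) :
    Sg A f₁ F = Sg A f₂ F := by
  classical
  rw [Sg, Sg, ← (Finite.injective_iff_bijective.1 he).sum_comp
    fun f => if f - f₂ ∈ perp A then F f else 0]
  simp only [h, h']

lemma Sg_count (A : AddSubgroup L) (f₀ : L →+ TT) (P : (L →+ TT) → Prop) [DecidablePred P] :
    Sg A f₀ (fun f => if P f then 1 else 0) = Nat.card {v : perp A // P (f₀ + v)} := by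
  classical
  rw [Sg]
  simp only [← ite_and, sum_boole]
  rw [← Fintype.card_subtype, ← Nat.card_eq_fintype_card]
  congr 1
  exact Nat.card_congr ⟨fun f => ⟨⟨f.1 - f₀, f.2.1⟩, by simpa using f.2.2⟩,
    fun v => ⟨f₀ + v.1, by simp, v.2⟩, fun f => by simp, fun v => by simp⟩

lemma Sg_one (A : AddSubgroup L) (f₀ : L →+ TT) :
    Sg A f₀ (fun _ => 1) * Nat.card A = Nat.card L := by
  have := Sg_count A f₀ fun _ => True
  simp only [if_true, Nat.card_congr (Equiv.subtypeUnivEquiv fun _ => trivial)] at this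
  rw [this, card_perp, ← Nat.cast_mul, A.index_mul_card]

lemma Sg_split {p : ℕ} [hp : Fact p.Prime] {A : AddSubgroup L} {b : L} (hb : b ∉ A)
    (hpb : p • b ∈ A) : ∃ g ∈ perp A, g b ≠ 0 ∧ ∀ (f₀ : L →+ TT) (F : (L →+ TT) → ℝ),
      Sg A f₀ F = ∑ i : Fin p, Sg (adj A b) (f₀ + i.1 • g) F := by
  classical
  obtain ⟨g, hg, hg0⟩ : ∃ g ∈ perp A, g b ≠ 0 := by
    by_contra h
    push Not at h
    have h1 : perp (adj A b) = perp A :=
      AddSubgroup.ext fun f => mem_perp_adj.trans ⟨fun h => h.1, fun hf => ⟨hf, h f hf⟩⟩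
    have h2 := card_perp (adj A b)
    rw [h1, card_perp] at h2
    have h3 := (adj A b).index_mul_card.trans A.index_mul_card.symm
    rw [← h2, card_ext hb hpb fun _ => mem_adj,
      Nat.mul_right_inj AddSubgroup.index_ne_zero_of_finite] at h3
    have := Nat.card_pos (α := A)
    have := hp.out.two_le
    nlinarith
  have hpg : p • g b = 0 := by rw [← map_nsmul, hg _ hpb]
  refine ⟨g, hg, hg0, fun f₀ F => ?_⟩
  simp only [Sg]
  rw [sum_comm]
  refine sum_congr rfl fun f _ => ?_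
  have h1 : ∀ i : Fin p, f - (f₀ + i.1 • g) ∈ perp (adj A b) ↔
      f - f₀ ∈ perp A ∧ (f - f₀) b = i.1 • g b := fun i => by
    rw [mem_perp_adj, ← sub_sub, AddMonoidHom.sub_apply _ (i.1 • g), sub_eq_zero, sub_eq_add_neg,
      (perp A).add_mem_cancel_right (neg_mem (nsmul_mem hg _))]
    rfl
  simp only [h1]
  split_ifs with h
  · obtain ⟨i, hi, h2⟩ := tors (a := (f - f₀) b) (by rw [← map_nsmul, h _ hpb]) hpg hg0
    rw [sum_eq_single ⟨i, hi⟩, if_pos ⟨h, h2⟩]
    · intro j _ hj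
      refine if_neg fun h3 => hj (Fin.ext ?_)
      have h4 := addOrderOf_eq_prime hpg hg0
      exact nsmul_injOn_Iio_addOrderOf (by simp [h4]) (by simpa [h4]) (h3.2.symm.trans h2)
    · simp
  · simp [h]

end

end Pool.Agent.P78
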