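import Mathlib

/-! The first jump of the kernels in an affine family of additive maps is cut out by
polynomials of bounded degree over the prime field. -/

set_option autoImplicit false

namespace Pool.Agent.P78

open MvPolynomial

lemma lattice_det {s : ℕ} (N : AddSubgroup (Fin s → ℤ)) [N.FiniteIndex] :
    (∀ B : Matrix (Fin s) (Fin s) ℤ, (∀ i, B i ∈ N) → (N.index : ℤ) ∣ B.det) ∧
    ∃ B : Matrix (Fin s) (Fin s) ℤ, (∀ i, B i ∈ N) ∧ B.det.natAbs = N.index := by
  have hr : Module.finrank ℤ N = s := by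
    rw [AddSubgroup.finrank_eq_of_finiteIndex]; simp
  have : Module.Free ℤ N := inferInstanceAs (Module.Free ℤ N.toIntSubmodule)
  have : Module.Finite ℤ N := inferInstanceAs (Module.Finite ℤ N.toIntSubmodule)
  let b := Module.finBasisOfFinrankEq ℤ N hr
  let E : Matrix (Fin s) (Fin s) ℤ := Matrix.of fun i => (b i : Fin s → ℤ)
  have hE : E.det.natAbs = N.index := by
    rw [AddSubgroup.index_eq_natAbs_det (Pi.basisFun ℤ (Fin s)) N b, Pi.basisFun_det_apply]
  refine ⟨fun B hB => ?_, E, fun i => (b i).2, hE⟩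
  have h : B = (Matrix.of fun i j => b.repr ⟨B i, hB i⟩ j) * E := by
    ext i j
    have := congrArg (fun x : N => (x : Fin s → ℤ) j) (b.sum_repr ⟨B i, hB i⟩)
    simp only [AddSubmonoidClass.coe_finsetSum, Finset.sum_apply] at this
    rw [← this, Matrix.mul_apply]
    rfl
  rw [h, Matrix.det_mul, ← hE, Int.natAbs_dvd]
  exact dvd_mul_left _ _

lemma eval_cast (p : ℕ) {n : ℕ} (D : MvPolynomial (Fin n) ℤ) (t : Fin n → ℤ) :
    eval (fun k => (t k : ZMod p)) (map (Int.castRingHom (ZMod p)) D) = (eval t D : ℤ) := by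
  rw [eval_map]
  exact (eval₂_comp_left (Int.castRingHom (ZMod p)) (RingHom.id ℤ) t D).symm

lemma exists_div (p : ℕ) [hp : Fact p.Prime] {n : ℕ} (ν : ℕ) (D : MvPolynomial (Fin n) ℤ)
    (hD : D.totalDegree < p) (h : ∀ t, (p : ℤ) ^ ν ∣ eval t D) :
    ∃ D', D = C ((p : ℤ) ^ ν) * D' ∧ D'.totalDegree ≤ D.totalDegree := by
  have hp0 : (p : ℤ) ≠ 0 := by exact_mod_cast hp.out.ne_zero
  induction ν with
  | zero => exact ⟨D, by simp, le_rfl⟩
  | succ ν ih =>
    obtain ⟨D', h1, h2⟩ := ih fun t => (pow_dvd_pow _ (Nat.le_succ ν)).trans (h t)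
    have h3 : map (Int.castRingHom (ZMod p)) D' = 0 := by
      refine eq_zero_of_eval_eq_zero (Fin n) (ZMod p) _ (fun v => ?_) ?_
      · have h4 := h fun k => ((v k).cast : ℤ)
        rw [h1, map_mul, eval_C, pow_succ, mul_dvd_mul_iff_left (pow_ne_zero _ hp0)] at h4
        have h5 := eval_cast p D' fun k => ((v k).cast : ℤ)
        simp only [ZMod.intCast_cast, ZMod.cast_id] at h5
        rw [h5, ZMod.intCast_zmod_eq_zero_iff_dvd]
        exact h4
      · rw [mem_restrictDegree]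
        intro s hs i
        have h4 := monomial_le_degreeOf i (support_map_subset _ _ hs)
        have h5 := degreeOf_le_totalDegree D' i
        rw [ZMod.card]
        omega
    obtain ⟨D'', h4⟩ := (C_dvd_iff_zmod p D').2 h3
    refine ⟨D'', by rw [h1, h4, pow_succ, map_mul, mul_assoc], le_trans ?_ h2⟩
    refine totalDegree_le_of_support_subset fun s hs => ?_
    rw [mem_support_iff] at hs ⊢
    rw [h4, coeff_C_mul]
    exact mul_ne_zero hp0 hs

lemma exists_gens (p : ℕ) [hp : Fact p.Prime] {A : Type*} [AddCommGroup A] [Finite A] {k : ℕ}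
    (hA : Nat.card A = p ^ k) (j : ℕ) : ∀ B : AddSubgroup A, B.index ≤ p ^ j →
    ∃ v : Fin j → A, ∀ a, ∃ t : Fin j → ℤ, a - ∑ i, t i • v i ∈ B := by
  induction j with
  | zero =>
    intro B hB
    have : B.index = 1 := le_antisymm (by simpa using hB) (Nat.pos_of_ne_zero B.index_ne_zero_of_finite)
    rw [AddSubgroup.index_eq_one] at this
    exact ⟨0, fun a => ⟨0, by simp [this]⟩⟩
  | succ j ih =>
    intro B hB
    by_cases h : B = ⊤
    · exact ⟨0, fun a => ⟨0, by simp [h]⟩⟩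
    obtain ⟨x, hx⟩ : ∃ x, x ∉ B := by
      by_contra h'
      push Not at h'
      exact h (eq_top_iff.2 fun x _ => h' x)
    set B' := B ⊔ AddSubgroup.zmultiples x with hB'
    obtain ⟨e, -, he⟩ := (Nat.dvd_prime_pow hp.out).1 (hA ▸ B.index_dvd_card)
    obtain ⟨e', -, he'⟩ := (Nat.dvd_prime_pow hp.out).1 (hA ▸ B'.index_dvd_card)
    have hlt : B'.index < B.index := AddSubgroup.index_strictAnti
      (lt_of_le_of_ne le_sup_left fun h => hx
        (h ▸ AddSubgroup.mem_sup_right (AddSubgroup.mem_zmultiples x)))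
    rw [he] at hB hlt
    rw [he'] at hlt
    rw [Nat.pow_lt_pow_iff_right hp.out.one_lt] at hlt
    rw [Nat.pow_le_pow_iff_right hp.out.one_lt] at hB
    obtain ⟨v, hv⟩ := ih B' (he' ▸ Nat.pow_le_pow_right hp.out.pos (by omega))
    refine ⟨Fin.cons x v, fun a => ?_⟩
    obtain ⟨t, ht⟩ := hv a
    obtain ⟨y, hy, z, ⟨r, rfl⟩, hyz⟩ := AddSubgroup.mem_sup.1 ht
    refine ⟨Fin.cons r t, ?_⟩
    simp only [Fin.sum_univ_succ, Fin.cons_zero, Fin.cons_succ]
    rw [← sub_sub, sub_right_comm, ← hyz]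
    simpa using hy

lemma exists_gens' (p : ℕ) [hp : Fact p.Prime] {A : Type*} [AddCommGroup A] [Finite A] {k c : ℕ}
    (hA : Nat.card A = p ^ k) (hc : Nat.card A ≤ p ^ c) :
    ∃ v : Fin c → A, ∀ a, ∃ t : Fin c → ℤ, a = ∑ i, t i • v i := by
  obtain ⟨v, hv⟩ := exists_gens p hA c ⊥ (by simpa using hc)
  exact ⟨v, fun a => (hv a).imp fun t ht => sub_eq_zero.1 ht⟩

/-- the linear combination map -/
def comb {A : Type*} [AddCommGroup A] {c : ℕ} (v : Fin c → A) : (Fin c → ℤ) →+ A where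
  toFun t := ∑ i, t i • v i
  map_zero' := by simp
  map_add' t u := by simp [add_smul, Finset.sum_add_distrib]

lemma comb_apply {A : Type*} [AddCommGroup A] {c : ℕ} (v : Fin c → A) (t : Fin c → ℤ) :
    comb v t = ∑ i, t i • v i := rfl

theorem fj_lin (p : ℕ) [hp : Fact p.Prime] {W A : Type*} [AddCommGroup W] [AddCommGroup A]
    [Finite A] {k c n : ℕ} (hA : Nat.card A = p ^ k) (hc : Nat.card A ≤ p ^ c) (hcp : c < p)
    (M₀ : W →+ A) (M : Fin n → W →+ A) :
    ∃ (S : Set (MvPolynomial (Fin n) (ZMod p))) (t₀ : Fin n → ℤ), (∀ s ∈ S, s.totalDegree ≤ c) ∧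
      (∀ t, (M₀ + comb M t₀).range.index ≤ (M₀ + comb M t).range.index) ∧
      ∀ t, (M₀ + comb M t₀).range.index < (M₀ + comb M t).range.index ↔
        ∀ s ∈ S, eval (fun k => (t k : ZMod p)) s = 0 := by
  classical
  have hp0 : (p : ℤ) ≠ 0 := by exact_mod_cast hp.out.ne_zero
  obtain ⟨g, hg⟩ := exists_gens' p hA hc
  have hσ : Function.Surjective (comb g) := fun a => (hg a).imp fun t ht => ht.symm
  obtain ⟨I, hI0⟩ : ∃ I : (Fin n → ℤ) → ℕ, ∀ t, (M₀ + comb M t).range.index = I t :=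
    ⟨_, fun _ => rfl⟩
  simp only [hI0]
  obtain ⟨t₀, ht₀⟩ : ∃ t₀, ∀ t, I t₀ ≤ I t :=
    ⟨Function.argmin I, fun t => Function.argmin_le I t⟩
  have hI : ∀ t, ∃ e, I t = p ^ e := fun t => by
    obtain ⟨e, -, he⟩ := (Nat.dvd_prime_pow hp.out).1 (hA ▸ (M₀ + comb M t).range.index_dvd_card)
    exact ⟨e, hI0 t ▸ he⟩
  let Λ : (Fin n → ℤ) → AddSubgroup (Fin c → ℤ) := fun t => (M₀ + comb M t).range.comap (comb g)
  have hΛ : ∀ t, (Λ t).index = I t := fun t =>
    (AddSubgroup.index_comap_of_surjective _ hσ).trans (hI0 t)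
  have hfin : ∀ t, (Λ t).FiniteIndex := fun t =>
    ⟨by rw [hΛ, ← hI0]; exact AddSubgroup.index_ne_zero_of_finite⟩
  let Adm : (Fin c → ℤ) → (Fin n → Fin c → ℤ) → Prop := fun u v =>
    ∃ w, comb g u = M₀ w ∧ ∀ k, comb g (v k) = M k w
  let Dt : (Fin c → Fin c → ℤ) → (Fin c → Fin n → Fin c → ℤ) → MvPolynomial (Fin n) ℤ :=
    fun u v => Matrix.det (Matrix.of fun i j => C (u i j) + ∑ k, C (v i k j) * X k)
  have hev : ∀ u v t, eval t (Dt u v) = Matrix.det (Matrix.of fun i => u i + comb (v i) t) := by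
    intro u v t
    rw [RingHom.map_det]
    congr 1
    ext i j
    simp [comb_apply, mul_comm]
  have hdeg : ∀ u v, (Dt u v).totalDegree ≤ c := by
    intro u v
    simp only [Dt, Matrix.det_apply]
    refine totalDegree_finsetSum_le fun σ _ => (totalDegree_smul_le _ _).trans ?_
    refine (totalDegree_finsetProd _ _).trans ?_
    refine (Finset.sum_le_card_nsmul _ _ 1 fun i _ => ?_).trans (by simp)
    rw [Matrix.of_apply]
    refine (totalDegree_add _ _).trans (max_le (by rw [totalDegree_C]; omega)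
      (totalDegree_finsetSum_le fun k _ => ?_))
    exact (totalDegree_mul _ _).trans (by rw [totalDegree_C, totalDegree_X])
  have hcomb : ∀ (v : Fin n → Fin c → ℤ) (w : W) (t : Fin n → ℤ), (∀ k, comb g (v k) = M k w) →
      comb g (comb v t) = comb M t w := fun v w t h => by
    simp only [comb_apply M, comb_apply v, map_sum, map_zsmul, h, AddMonoidHom.finsetSum_apply,
      AddMonoidHom.zsmul_apply]
  have hmem : ∀ u v t, Adm u v → u + comb v t ∈ Λ t := by
    rintro u v t ⟨w, h1, h2⟩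
    exact ⟨w, by rw [map_add, h1, hcomb v w t h2]; rfl⟩
  have hadm : ∀ t, ∀ x ∈ Λ t, ∃ u v, Adm u v ∧ x = u + comb v t := by
    rintro t x ⟨w, hw⟩
    choose v hv using fun k => hσ (M k w)
    refine ⟨x - comb v t, v, ⟨w, ?_, hv⟩, by simp⟩
    rw [map_sub, ← hw, hcomb v w t hv]
    simp
  clear_value Dt
  have hdvd : ∀ u v t, (∀ i, Adm (u i) (v i)) → (I t : ℤ) ∣ eval t (Dt u v) := fun u v t h => by
    have := hfin t
    rw [hev, ← hΛ]
    exact (lattice_det (Λ t)).1 _ fun i => hmem _ _ t (h i)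
  obtain ⟨ν, hν⟩ := hI t₀
  have hle : ∀ t, (p : ℤ) ^ ν ∣ I t := fun t => by
    obtain ⟨e, he⟩ := hI t
    have := ht₀ t
    rw [hν, he, Nat.pow_le_pow_iff_right hp.out.one_lt] at this
    rw [he]
    exact_mod_cast pow_dvd_pow p this
  refine ⟨{s | ∃ u v D', (∀ i, Adm (u i) (v i)) ∧ Dt u v = C ((p : ℤ) ^ ν) * D' ∧
    D'.totalDegree ≤ c ∧ s = map (Int.castRingHom (ZMod p)) D'}, t₀, ?_, ht₀, fun t => ?_⟩
  · intro s hs
    obtain ⟨u, v, D', -, -, h, h'⟩ := hs
    rw [h']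
    refine le_trans ?_ h
    unfold totalDegree
    exact Finset.sup_mono (support_map_subset _ D')
  obtain ⟨e, he⟩ := hI t
  constructor
  · intro h s hs
    obtain ⟨u, v, D', h1, h2, -, h'⟩ := hs
    rw [h', eval_cast, ZMod.intCast_zmod_eq_zero_iff_dvd]
    have h3 := hdvd u v t h1
    rw [hν, he, Nat.pow_lt_pow_iff_right hp.out.one_lt] at h
    rw [he, h2, map_mul, eval_C] at h3
    have h4 : (p : ℤ) ^ ν * p ∣ (p ^ e : ℕ) := by
      rw [← pow_succ]; exact_mod_cast pow_dvd_pow p h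
    exact (mul_dvd_mul_iff_left (pow_ne_zero _ hp0)).1 (h4.trans h3)
  · intro h
    have := hfin t
    obtain ⟨B, hB, hB'⟩ := (lattice_det (Λ t)).2
    choose u v h1 h2 using fun i => hadm t (B i) (hB i)
    obtain ⟨D', h3, h4⟩ := exists_div p ν (Dt u v) ((hdeg u v).trans_lt hcp)
      fun t => (hle t).trans (hdvd u v t h1)
    have h5 := h _ ⟨u, v, D', h1, h3, h4.trans (hdeg u v), rfl⟩
    rw [eval_cast, ZMod.intCast_zmod_eq_zero_iff_dvd] at h5
    have h6 : B.det = (p : ℤ) ^ ν * eval t D' := by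
      rw [← eval_C (f := t) ((p : ℤ) ^ ν), ← map_mul, ← h3, hev]
      congr 1
      ext i j
      rw [h2 i]; rfl
    have h7 : (p : ℤ) ^ (ν + 1) ∣ B.det := by
      rw [h6, pow_succ]; exact mul_dvd_mul_left _ h5
    rw [← Int.dvd_natAbs, hB', hΛ, he] at h7
    have h8 : p ^ (ν + 1) ∣ p ^ e := by exact_mod_cast h7
    rw [hν, he]
    exact (Nat.pow_lt_pow_right hp.out.one_lt (Nat.lt_succ_self ν)).trans_le
      (Nat.le_of_dvd (pow_pos hp.out.pos _) h8)

end Pool.Agent.P78
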