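import Pool.Agent.Lib.MP_78c6b1_al.Short.Orbit

/-! The orbit tree of a finite nilpotent Lie ring is a branching tree. -/

set_option autoImplicit false

namespace Pool.Agent.P78

open Finset

variable {L : Type} [LieRing L] {p : ℕ} {S A : AddSubgroup L} {f : L →+ TT} {b : L}

lemma le_adj : A ≤ adj A b := le_sup_left

lemma Node.adj_le (h : Node S A f) (hb : b ∈ S) : adj A b ≤ S :=
  sup_le h.le (AddSubgroup.zmultiples_le_of_mem hb)

lemma Node.adj_lie (h : Node S A f) (hb : ∀ y ∈ S, ⁅b, y⁆ ∈ A) :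
    ∀ x ∈ adj A b, ∀ y ∈ S, ⁅x, y⁆ ∈ A := fun x hx y hy => by
  obtain ⟨a, ha, k, rfl⟩ := lie_adj hx
  rw [add_lie, zsmul_lie]
  exact add_mem (h.idl a ha y hy) (zsmul_mem (hb y hy) k)

lemma Node.adj_kill (h : Node S A f) {x y : L} (hx : x ∈ adj A b) (hy : y ∈ S)
    (h0 : f ⁅b, y⁆ = 0) : f ⁅x, y⁆ = 0 := by
  obtain ⟨a, ha, k, rfl⟩ := lie_adj hx
  rw [add_lie, zsmul_lie, map_add, map_zsmul, h.kill a ha y hy, h0, smul_zero, add_zero]

lemma Node.branch (h : Node S A f) (hbS : b ∈ S) (hb : ∀ y ∈ S, ⁅b, y⁆ ∈ A)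
    (h0 : ∀ y ∈ S, f ⁅b, y⁆ = 0) {g : L →+ TT} (hg : g - f ∈ perp A) : Node S (adj A b) g :=
  ⟨h.adj_le hbS, h.sub, fun x hx y hy => le_adj (h.adj_lie hb x hx y hy), fun x hx y hy =>
    (sub_mem_perp.1 hg _ (h.adj_lie hb x hx y hy)).trans (h.adj_kill hx hy (h0 y hy))⟩

/-- the elements of `S` orthogonal to `b` -/
def orth (S : AddSubgroup L) (f : L →+ TT) (b : L) : AddSubgroup L where
  carrier := {x | x ∈ S ∧ f ⁅b, x⁆ = 0}
  add_mem' hx hy := ⟨add_mem hx.1 hy.1, by rw [lie_add, map_add, hx.2, hy.2, add_zero]⟩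
  zero_mem' := ⟨zero_mem _, by simp⟩
  neg_mem' hx := ⟨neg_mem hx.1, by rw [lie_neg, map_neg, hx.2, neg_zero]⟩

lemma Node.lie_orth (h : Node S A f) (hb : ∀ y ∈ S, ⁅b, y⁆ ∈ A) :
    ∀ x ∈ S, ∀ y ∈ S, ⁅x, y⁆ ∈ orth S f b := fun x hx y hy =>
  ⟨h.sub x hx y hy, by
    rw [leibniz_lie, map_add, h.kill _ (hb x hx) y hy, map_lie_skew, h.kill _ (hb y hy) x hx,
      neg_zero, add_zero]⟩

lemma Node.reduce (h : Node S A f) (hbS : b ∈ S) (hb : ∀ y ∈ S, ⁅b, y⁆ ∈ A) :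
    Node (orth S f b) (adj A b) f :=
  ⟨fun x hx => ⟨h.adj_le hbS hx, by
      rw [map_lie_skew, h.adj_kill hx hbS (by simp), neg_zero]⟩,
    fun x hx y hy => h.lie_orth hb x hx.1 y hy.1,
    fun x hx y hy => le_adj (h.adj_lie hb x hx y hy.1), fun x hx y hy => h.adj_kill hx hy.1 hy.2⟩

variable [hp : Fact p.Prime]

lemma Node.orth_ext (h : Node S A f) (hpb : p • b ∈ A) {s : L} (hs : s ∈ S) (h0 : f ⁅b, s⁆ ≠ 0) :
    p • s ∈ orth S f b ∧ ∀ x, x ∈ S ↔ ∃ k : ℤ, x - k • s ∈ orth S f b := by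
  have h1 : ∀ y ∈ S, p • f ⁅b, y⁆ = 0 := fun y hy => by
    rw [← map_nsmul, ← nsmul_lie, h.kill _ hpb y hy]
  refine ⟨⟨nsmul_mem hs _, by rw [lie_nsmul, map_nsmul, h1 s hs]⟩, fun x => ⟨fun hx => ?_, ?_⟩⟩
  · obtain ⟨i, -, hi⟩ := tors (h1 x hx) (h1 s hs) h0
    exact ⟨i, sub_mem hx (zsmul_mem hs _), by
      rw [lie_sub, lie_zsmul, map_sub, map_zsmul, hi, natCast_zsmul, sub_self]⟩
  · rintro ⟨k, hk⟩
    simpa using add_mem hk.1 (zsmul_mem hs k)

variable [Finite L]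

lemma Node.card_Rad_orth (h : Node S A f) (hbS : b ∈ S) (hpb : p • b ∈ A)
    (hb : ∀ y ∈ S, ⁅b, y⁆ ∈ A) {s : L} (hs : s ∈ S) (h0 : f ⁅b, s⁆ ≠ 0) {g : L →+ TT}
    (hg : g - f ∈ perp A) : Nat.card (Rad (orth S f b) g) = p * Nat.card (Rad S g) := by
  obtain ⟨h1, h2⟩ := h.orth_ext hpb hs h0
  have h3 : ∀ y ∈ S, g ⁅b, y⁆ = f ⁅b, y⁆ := fun y hy => sub_mem_perp.1 hg _ (hb y hy)
  refine card_ext (b := b) (fun h4 => h0 (h3 s hs ▸ h4.2 s hs)) (h.le_Rad hg hpb)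
    fun x => ⟨fun hx => ?_, ?_⟩
  · obtain ⟨i, -, hi⟩ := tors (a := g ⁅x, s⁆) (b := f ⁅b, s⁆) (p := p)
      (by rw [← map_nsmul, ← lie_nsmul, hx.2 _ h1])
      (by rw [← map_nsmul, ← lie_nsmul, h1.2]) h0
    refine ⟨i, sub_mem hx.1.1 (zsmul_mem hbS _), fun y hy => ?_⟩
    obtain ⟨k, hk⟩ := (h2 y).1 hy
    rw [show y = y - k • s + k • s by simp, lie_add, lie_zsmul, sub_lie, sub_lie, zsmul_lie,
      zsmul_lie]
    simp only [map_add, map_sub, map_zsmul]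
    rw [hx.2 _ hk, h3 _ hk.1, hk.2, hi, h3 s hs]
    simp
  · rintro ⟨k, hk⟩
    refine ⟨⟨by simpa using add_mem hk.1 (zsmul_mem hbS k), ?_⟩, fun y hy => ?_⟩
    · have h4 := hk.2 b hbS
      rw [sub_lie, zsmul_lie, lie_self, smul_zero, sub_zero, map_lie_skew, neg_eq_zero] at h4
      rw [← h3 x (by simpa using add_mem hk.1 (zsmul_mem hbS k)), h4]
    · have h4 := hk.2 y hy.1
      rwa [sub_lie, zsmul_lie, map_sub, map_zsmul, h3 y hy.1, hy.2, smul_zero, sub_zero] at h4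

lemma Node.conj {G : Type} [Group G] (Z : Laz G L) (h : Node S A f) (hbS : b ∈ S)
    (hpb : p • b ∈ A) (hb : ∀ y ∈ S, ⁅b, y⁆ ∈ A) {s : L} (hs : s ∈ S) (h0 : f ⁅b, s⁆ ≠ 0)
    {g : L →+ TT} (hg : g ∈ perp A) (φ : ℕ → ℝ) :
    Sg (adj A b) (f + g) (fun h => φ (Nat.card (Rad (orth S f b) h))) =
      Sg (adj A b) f fun h => φ (Nat.card (Rad (orth S f b) h)) := by
  obtain ⟨j, -, hj⟩ := tors (a := g b) (p := p) (by rw [← map_nsmul, hg _ hpb])
    (by rw [← map_nsmul, ← nsmul_lie, h.kill _ hpb s hs]) h0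
  have ht : -(j • s) ∈ S := neg_mem (nsmul_mem hs j)
  obtain ⟨α, h1, h2, h3⟩ := Z.exists_aut (-(j • s))
  have h4 : ∀ x ∈ adj A b, α x ∈ adj A b ∧ f (α x) = (f + g) x := fun x hx => by
    have h5 : ⁅-(j • s), x⁆ ∈ A := by
      rw [← lie_skew]; exact neg_mem (h.adj_lie hb x hx _ ht)
    have h6 : ∀ y ∈ S, ∀ v ∈ A, ⁅v, y⁆ ∈ A ⊓ f.ker := fun y hy v hv =>
      ⟨h.idl v hv y hy, h.kill v hv y hy⟩
    obtain ⟨h7, h8⟩ := h3 x A (A ⊓ f.ker) inf_le_left h5 (h6 _ ht) (h6 _ (h.adj_le hbS hx))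
      fun v hv u hu => h6 u (h.le hu) v hv
    refine ⟨by simpa using add_mem (add_mem (le_adj h7) (le_adj h5)) hx, ?_⟩
    replace h8 : f (α x - x - ⁅-(j • s), x⁆) = 0 := h8
    rw [map_sub, map_sub, sub_sub, sub_eq_zero] at h8
    rw [h8, AddMonoidHom.add_apply, add_right_inj, map_lie_skew]
    obtain ⟨a, ha, k, rfl⟩ := lie_adj hx
    rw [add_lie, zsmul_lie, map_add, map_add, map_zsmul, map_zsmul, h.kill a ha _ ht, hg a ha, hj,
      lie_neg, lie_nsmul, map_neg, map_nsmul]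
    simp
  have h5 : ∀ x ∈ orth S f b, α x ∈ orth S f b := fun x hx => by
    have h6 := h.lie_orth hb _ ht x hx.1
    have h7 := h3 x (orth S f b) _ le_rfl h6 (fun v hv => h.lie_orth hb v hv.1 _ ht)
      (fun v hv => h.lie_orth hb v hv.1 _ hx.1) fun v hv u hu => h.lie_orth hb v hv.1 _ hu.1
    simpa using add_mem (add_mem h7 h6) hx
  refine (Sg_transport (fun h => h.comp α) (fun h h' e => AddMonoidHom.ext fun y => ?_)
    (fun h => ?_) fun h => ?_).symm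
  · obtain ⟨x, rfl⟩ := Finite.injective_iff_surjective.1 h1 y
    exact DFunLike.congr_fun e x
  · rw [sub_mem_perp, sub_mem_perp]
    refine ⟨fun e x hx => (e _ (h4 x hx).1).trans (h4 x hx).2, fun e y hy => ?_⟩
    obtain ⟨x, hx, rfl⟩ := onto_of_maps α h1 (fun x hx => (h4 x hx).1) y hy
    exact (e x hx).trans (h4 x hx).2.symm
  · rw [card_Rad_comp α h1 h2 h5 (onto_of_maps α h1 h5)]

omit hp in
lemma Node.leaf (h : Node S A f) (hS : Nat.card S = Nat.card A) (φ : ℕ → ℝ) :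
    Sg A f (fun g => φ (Nat.card (Rad S g))) * Nat.card A / Nat.card L = φ (Nat.card A) := by
  obtain rfl : A = S := AddSubgroup.eq_of_le_of_card_ge h.le hS.le
  have : (0 : ℝ) < Nat.card L := by exact_mod_cast Nat.card_pos
  rw [Sg_congr (F' := fun _ => φ (Nat.card A) * 1) fun g hg => by
    rw [le_antisymm (fun x hx => hx.1) (h.le_Rad hg), mul_one], Sg_mul, mul_assoc, Sg_one,
    mul_div_cancel_right₀ _ this.ne']

omit hp in
lemma Node.leaf_Nn (h : Node S A f) (hS : Nat.card S = Nat.card A) : Nn S A f = 1 := by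
  have : (0 : ℝ) < Nat.card A := by exact_mod_cast Nat.card_pos
  have h1 := h.leaf hS fun n => n
  rwa [mul_div_right_comm, mul_eq_right₀ this.ne'] at h1

theorem node_tr {G : Type} [Group G] (Z : Laz G L) {C K : ℕ} (hL : Nat.card L = p ^ K)
    (hQ : ∀ {S A : AddSubgroup L} {f : L →+ TT}, Node S A f → Qp p C (wt p S A f)) (d : ℕ) :
    ∀ {S A : AddSubgroup L} {f : L →+ TT}, Node S A f → Nat.card S = p ^ d * Nat.card A →
      Tr p C d (wt p S A f) (Nn S A f) := by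
  induction d using Nat.strong_induction_on with | _ d ih =>
  intro S A f h hS
  have hA : 0 < Nat.card A := Nat.card_pos
  have hp1 := hp.out.one_lt
  have hp0 : (p : ℝ) ≠ 0 := by positivity
  rcases d with _ | d
  · rw [pow_zero, one_mul] at hS
    rw [h.leaf_Nn hS]
    have h1 : ∀ j, wt p S A f j = if Nat.card A = p ^ j * Nat.card A then 1 else 0 := fun j =>
      h.leaf hS fun n => if n = p ^ j * Nat.card A then 1 else 0
    refine .leaf (by simp [h1]) fun j => ?_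
    rw [h1, if_neg]
    have := Nat.one_lt_pow (n := j + 1) (by omega) hp1
    nlinarith
  obtain ⟨b, hbS, hbA, hpb, hb⟩ := Z.exists_central hL h.sub fun h1 : S ≤ A => by
    have := Nat.one_lt_pow (n := d + 1) (by omega) hp1
    have := AddSubgroup.card_le_of_le h1
    nlinarith
  have hB : Nat.card (adj A b) = p * Nat.card A := card_ext hbA hpb fun _ => mem_adj
  obtain ⟨g, hg, -, hsp⟩ := Sg_split hbA hpb
  by_cases h0 : ∀ y ∈ S, f ⁅b, y⁆ = 0
  · rw [show Nn S A f = ∑ i : Fin p, Nn S (adj A b) (f + i.1 • g) by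
      simp only [Nn, hsp, sum_div]]
    refine .br (fun i => wt p S (adj A b) (f + i.1 • g)) _ (fun i => ih d d.lt_succ_self
      (h.branch hbS hb h0 (by simpa using nsmul_mem hg _)) (by rw [hS, hB]; ring)) (hQ h) ?_
      fun j => ?_
    · rw [wt, Sg_congr (F' := fun _ => 0 * 1) fun g hg => ?_, Sg_mul, zero_mul, zero_mul, zero_div]
      have := AddSubgroup.card_le_of_le ((h.branch hbS hb h0 hg).le_Rad (g := g) (by simp))
      rw [zero_mul, if_neg]
      nlinarith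
    · simp only [wt, hsp, hB, ← sum_div, ← sum_mul, pow_succ, mul_assoc]
      push_cast
      ring
  push Not at h0
  obtain ⟨s, hs, h0⟩ := h0
  have h1 := h.reduce hbS hb
  have h2 : Nat.card S = p * Nat.card (orth S f b) :=
    card_ext (fun h => h0 h.2) (h.orth_ext hpb hs h0).1 (h.orth_ext hpb hs h0).2
  rw [hS, pow_succ', mul_assoc, Nat.mul_right_inj (by omega)] at h2
  rcases d with _ | d
  · have := AddSubgroup.card_le_of_le h1.le
    nlinarith
  have h3 : ∀ φ ψ : ℕ → ℝ, (∀ n, φ (p * n) = ψ n) →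
      Sg A f (fun h => ψ (Nat.card (Rad S h))) =
        p * Sg (adj A b) f fun h => φ (Nat.card (Rad (orth S f b) h)) := fun φ ψ e => by
    rw [Sg_congr (F' := fun h => φ (Nat.card (Rad (orth S f b) h))) fun g hg => by
      rw [h.card_Rad_orth hbS hpb hb hs h0 hg, e], hsp]
    simp [h.conj Z hbS hpb hb hs h0 (nsmul_mem hg _) φ]
  have h4 : Nn S A f = Nn (orth S f b) (adj A b) f := by
    rw [Nn, Nn, h3 (fun n => (p : ℝ)⁻¹ * n) (fun n => n) fun n => by simp [hp0], Sg_mul,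
      mul_inv_cancel_left₀ hp0]
  have h5 : wt p S A f = wt p (orth S f b) (adj A b) f := funext fun j => by
    rw [wt, wt, h3 (fun n => if n = p ^ j * Nat.card (adj A b) then 1 else 0)
      (fun n => if n = p ^ j * Nat.card A then 1 else 0) fun n => by
        simp only [hB, mul_left_comm _ p, Nat.mul_right_inj hp.out.ne_zero], hB]
    push_cast
    ring
  rw [h4, h5]
  exact .red (ih d (by omega) h1 (by rw [← h2, hB]; ring))

end Pool.Agent.P78
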