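import Mathlib

/-! The abstract branching tree behind the count of coadjoint orbits. -/

set_option autoImplicit false

namespace Pool.Agent.P78

open Finset

/-- the first jump has small density, and very small density or density about `1/p` -/
def Qp (p C : ℕ) (w : ℕ → ℝ) : Prop :=
  ∀ j, (∀ i < j, w i = 0) → 0 < w j →
    p * (1 - w j) ≤ C ∧ (p ^ 2 * (1 - w j) ≤ C ∨ 19 / 20 ≤ p * (1 - w j))

/-- nodes: dimension, distribution of the corank and mean size of the radical -/
inductive Tr (p C : ℕ) : ℕ → (ℕ → ℝ) → ℝ → Prop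
  | leaf {w : ℕ → ℝ} : w 0 = 1 → (∀ j, w (j + 1) = 0) → Tr p C 0 w 1
  | red {d : ℕ} {w : ℕ → ℝ} {N : ℝ} : Tr p C d w N → Tr p C (d + 2) w N
  | br {d : ℕ} (u : Fin p → ℕ → ℝ) (M : Fin p → ℝ) {w : ℕ → ℝ} : (∀ i, Tr p C d (u i) (M i)) →
      Qp p C w → w 0 = 0 → (∀ j, p * w (j + 1) = ∑ i, u i j) → Tr p C (d + 1) w (∑ i, M i)

namespace Tr

variable {p C d : ℕ} {w : ℕ → ℝ} {N : ℝ}

lemma nonneg (hp : 0 < p) (h : Tr p C d w N) : ∀ j, 0 ≤ w j := by
  induction h with
  | leaf h0 h1 => intro j; cases j <;> simp [h0, h1]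
  | red _ ih => exact ih
  | br u M _ _ h0 h1 ih =>
    intro j
    cases j with
    | zero => exact h0.ge
    | succ j =>
      exact nonneg_of_mul_nonneg_right (h1 j ▸ sum_nonneg fun i _ => ih i j) (by exact_mod_cast hp)

lemma parity (hp : 0 < p) (h : Tr p C d w N) : ∀ j, w j ≠ 0 → j % 2 = d % 2 := by
  induction h with
  | leaf h0 h1 => intro j; cases j <;> simp [h1]
  | red _ ih => intro j hj; rw [ih j hj]; omega
  | br u M _ _ h0 h1 ih =>
    intro j hj
    cases j with
    | zero => exact absurd h0 hj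
    | succ j =>
      obtain ⟨i, -, hi⟩ := exists_ne_zero_of_sum_ne_zero
        (h1 j ▸ mul_ne_zero (by exact_mod_cast hp.ne') hj)
      have := ih i j hi
      omega

lemma zero (h : Tr p C d w N) : w 0 = 0 ∨ w 0 = 1 ∧ N = 1 := by
  induction h with
  | leaf h0 _ => exact Or.inr ⟨h0, rfl⟩
  | red _ ih => exact ih
  | br u M _ _ h0 _ _ => exact Or.inl h0

lemma low (hp : 0 < p) (h : Tr p C d w N) : ∀ j, (∀ i < j, w i = 0) → (p : ℝ) ^ j ≤ N := by
  have hp1 : (1 : ℝ) ≤ p := by exact_mod_cast hp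
  induction h with
  | leaf h0 _ =>
    intro j hj
    cases j with
    | zero => simp
    | succ j => exact absurd (h0 ▸ hj 0 (by omega)) one_ne_zero
  | red _ ih => exact ih
  | @br d u M w h _ h0 h1 ih =>
    have key : ∀ j, (∀ i < j + 1, w i = 0) → (p : ℝ) ^ (j + 1) ≤ ∑ i, M i := fun j hj => by
      refine le_trans ?_ (card_nsmul_le_sum _ _ _ fun i _ => ih i j fun k hk =>
        (sum_eq_zero_iff_of_nonneg fun i _ => (h i).nonneg hp k).1
          (by rw [← h1, hj (k + 1) (by omega), mul_zero]) i (mem_univ _))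
      simp [pow_succ, mul_comm]
    intro j hj
    cases j with
    | zero =>
      refine le_trans ?_ (key 0 fun i hi => by rw [show i = 0 by omega, h0])
      simpa using hp1
    | succ j => exact key j hj

lemma desc (h : Tr p C d w N) (h0 : w 0 = 0) : ∃ d' < d, ∃ (u : Fin p → ℕ → ℝ) (M : Fin p → ℝ),
    (d' + 1) % 2 = d % 2 ∧ (∀ i, Tr p C d' (u i) (M i)) ∧ Qp p C w ∧
      (∀ j, p * w (j + 1) = ∑ i, u i j) ∧ N = ∑ i, M i := by
  induction h with
  | leaf h1 _ => exact absurd (h1 ▸ h0) one_ne_zero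
  | red _ ih =>
    obtain ⟨d', h1, u, M, h2, h3⟩ := ih h0
    exact ⟨d', by omega, u, M, by omega, h3⟩
  | br u M h hQ _ h1 _ => exact ⟨_, Nat.lt_succ_self _, u, M, rfl, h, hQ, h1, rfl⟩

end Tr

lemma fam_bound {ι : Type*} [Fintype ι] (a M : ι → ℝ) {K B C : ℝ} (hK : 0 ≤ K)
    (h0 : ∀ i, a i = 0 ∨ a i = 1 ∧ M i = 1) (h1 : ∀ i, 0 ≤ M i) (h2 : ∀ i, M i ≤ K ∨ B ≤ M i)
    (h3 : Fintype.card ι - ∑ i, a i ≤ C) : ∑ i, M i ≤ Fintype.card ι + C * K ∨ B ≤ ∑ i, M i := by
  by_cases h : ∃ i, B ≤ M i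
  · obtain ⟨i, hi⟩ := h
    exact Or.inr (hi.trans (single_le_sum (fun i _ => h1 i) (mem_univ i)))
  push Not at h
  left
  have h4 : ∑ i, M i ≤ ∑ i, (1 + (1 - a i) * K) := sum_le_sum fun i _ => by
    have := (h2 i).resolve_right (h i).not_ge
    rcases h0 i with h5 | ⟨h5, h6⟩
    · rw [h5]; linarith
    · rw [h5, h6]; linarith
  rw [sum_add_distrib, ← sum_mul, sum_sub_distrib, sum_const, card_univ, nsmul_eq_mul,
    mul_one] at h4
  exact h4.trans (by gcongr)

theorem tree_bound (C D : ℕ) : ∃ K : ℕ, ∀ p : ℕ, 0 < p → ∀ d < D, ∀ w N, Tr p C d w N →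
    N ≤ K * (p : ℝ) ^ 2 ∨ 19 / 20 * (p : ℝ) ^ 3 ≤ N := by
  induction D with
  | zero => exact ⟨0, fun p _ d hd => absurd hd (by omega)⟩
  | succ D ih =>
    obtain ⟨K, hK⟩ := ih
    refine ⟨1 + C * K, fun p hp d hd w N h => ?_⟩
    have hp1 : (1 : ℝ) ≤ p := by exact_mod_cast hp
    have hp2 : (p : ℝ) ≤ p ^ 2 := by nlinarith
    have hCK : (0 : ℝ) ≤ C * (K * p ^ 2) := by positivity
    have hM : ∀ {d w N}, Tr p C d w N → 0 ≤ N := fun h =>
      le_trans (by positivity) (h.low hp 0 fun _ h => absurd h (by omega))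
    push_cast
    rcases h.zero with h0 | ⟨-, rfl⟩
    swap
    · left; nlinarith
    obtain ⟨d', hd', u, M, -, hu, hQ, hw, rfl⟩ := h.desc h0
    rcases (h.nonneg hp 1).eq_or_lt with h1 | h1
    swap
    · have h2 := (hQ 1 (fun i hi => by rw [show i = 0 by omega, h0]) h1).1
      refine (fam_bound (fun i => u i 0) M (C := C) (by positivity) (fun i => (hu i).zero)
        (fun i => hM (hu i)) (fun i => hK p hp d' (by omega) _ _ (hu i)) ?_).imp_left fun h3 => ?_
      · rw [← hw, Fintype.card_fin]; linarith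
      · rw [Fintype.card_fin] at h3; nlinarith
    rcases (h.nonneg hp 2).eq_or_lt with h2 | h2
    · right
      have := h.low hp 3 fun i hi => by interval_cases i <;> simp [h0, ← h1, ← h2]
      nlinarith [pow_pos (show (0 : ℝ) < p by linarith) 3]
    have h3 : ∀ i, u i 0 = 0 := fun i =>
      (sum_eq_zero_iff_of_nonneg fun i _ => (hu i).nonneg hp 0).1
        (by rw [← hw, ← h1, mul_zero]) i (mem_univ _)
    choose e he v R h4 h5 _ h6 h7 using fun i => (hu i).desc (h3 i)
    have h8 : ∑ i, M i = ∑ x : Fin p × Fin p, R x.1 x.2 := by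
      rw [Fintype.sum_prod_type]; exact sum_congr rfl fun i _ => h7 i
    have h9 : ∑ x : Fin p × Fin p, v x.1 x.2 0 = p ^ 2 * w 2 := by
      rw [Fintype.sum_prod_type, pow_two, mul_assoc, hw, mul_sum]
      exact sum_congr rfl fun i _ => (h6 i 0).symm
    have h10 : (Fintype.card (Fin p × Fin p) : ℝ) = p ^ 2 := by simp [pow_two]
    rw [h8]
    rcases (hQ 2 (fun i hi => by interval_cases i <;> simp [h0, ← h1]) h2).2 with h11 | h11
    · refine (fam_bound (fun x : Fin p × Fin p => v x.1 x.2 0) (fun x => R x.1 x.2) (C := C)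
        (by positivity) (fun x => (h5 _ _).zero) (fun x => hM (h5 _ _))
        (fun x => hK p hp (e x.1) (by have := he x.1; omega) _ _ (h5 _ _)) ?_).imp_left
          fun h3 => ?_
      · rw [h9, h10]; linarith
      · rw [h10] at h3; nlinarith
    · right
      have hd2 : d' % 2 = 1 := by
        obtain ⟨i, -, hi⟩ := exists_ne_zero_of_sum_ne_zero
          (hw 1 ▸ mul_ne_zero (by linarith) h2.ne')
        exact ((hu i).parity hp 1 hi).symm
      have h12 : ∑ x : Fin p × Fin p, (1 - v x.1 x.2 0) * (p : ℝ) ^ 2 ≤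
          ∑ x : Fin p × Fin p, R x.1 x.2 := sum_le_sum fun x _ => by
        rcases (h5 x.1 x.2).zero with h13 | ⟨h13, h14⟩
        · rw [h13, sub_zero, one_mul]
          refine (h5 x.1 x.2).low hp 2 fun i hi => ?_
          interval_cases i
          · exact h13
          · by_contra h14
            have := (h5 x.1 x.2).parity hp 1 h14
            have := h4 x.1
            omega
        · rw [h13, h14]; simp
      rw [← sum_mul, sum_sub_distrib, sum_const, card_univ, nsmul_eq_mul, mul_one, h9, h10] at h12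
      refine le_trans ?_ h12
      have := mul_le_mul_of_nonneg_right h11 (show (0 : ℝ) ≤ p ^ 3 by positivity)
      linarith

end Pool.Agent.P78
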