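import Pool.Agent.Lib.MP_78c6b1_al.Short.Dual
import Pool.Agent.Lib.MP_78c6b1_al.Short.Tree
import Pool.Agent.Lib.MP_78c6b1_al.Neg.Laz

/-! Nodes of the orbit tree of a finite nilpotent Lie ring. -/

set_option autoImplicit false

namespace Pool.Agent.P78

open Finset
open scoped commutatorElement

variable {L : Type} [LieRing L]

/-- radical of the form attached to a character, on a subring -/
def Rad (S : AddSubgroup L) (f : L →+ TT) : AddSubgroup L where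
  carrier := {x | x ∈ S ∧ ∀ y ∈ S, f ⁅x, y⁆ = 0}
  add_mem' hx hy := ⟨add_mem hx.1 hy.1, fun z hz => by simp [hx.2 z hz, hy.2 z hz]⟩
  zero_mem' := ⟨zero_mem _, fun _ _ => by simp⟩
  neg_mem' hx := ⟨neg_mem hx.1, fun z hz => by rw [neg_lie, map_neg, hx.2 z hz, neg_zero]⟩

lemma mem_Rad {S : AddSubgroup L} {f : L →+ TT} {x : L} :
    x ∈ Rad S f ↔ x ∈ S ∧ ∀ y ∈ S, f ⁅x, y⁆ = 0 := Iff.rfl

/-- a subring, an ideal of it and a character that kills their bracket -/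
structure Node (S A : AddSubgroup L) (f : L →+ TT) : Prop where
  le : A ≤ S
  sub : ∀ x ∈ S, ∀ y ∈ S, ⁅x, y⁆ ∈ S
  idl : ∀ a ∈ A, ∀ y ∈ S, ⁅a, y⁆ ∈ A
  kill : ∀ a ∈ A, ∀ y ∈ S, f ⁅a, y⁆ = 0

lemma Node.le_Rad {S A : AddSubgroup L} {f g : L →+ TT} (h : Node S A f) (hg : g - f ∈ perp A) :
    A ≤ Rad S g := fun a ha =>
  ⟨h.le ha, fun y hy => (sub_mem_perp.1 hg _ (h.idl a ha y hy)).trans (h.kill a ha y hy)⟩

lemma map_lie_skew (f : L →+ TT) (x y : L) : f ⁅x, y⁆ = -f ⁅y, x⁆ := by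
  rw [← lie_skew, map_neg]

lemma lie_adj {A : AddSubgroup L} {b x : L} (hx : x ∈ adj A b) :
    ∃ a ∈ A, ∃ k : ℤ, x = a + k • b := by
  obtain ⟨k, hk⟩ := mem_adj.1 hx
  exact ⟨_, hk, k, by simp⟩

/-- the form attached to a character -/
noncomputable def obil (S : AddSubgroup L) : (L →+ TT) →+ S →+ S →+ TT where
  toFun f :=
    { toFun := fun x =>
        { toFun := fun y => f ⁅x.1, y.1⁆
          map_zero' := by simp
          map_add' := fun y z => by simp }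
      map_zero' := by ext; simp
      map_add' := fun x y => by ext; simp }
  map_zero' := rfl
  map_add' _ _ := rfl

lemma card_ker_bil (S : AddSubgroup L) (f : L →+ TT) :
    Nat.card (obil S f).ker = Nat.card (Rad S f) :=
  Nat.card_congr ⟨fun x => ⟨x.1.1, x.1.2, fun y hy => DFunLike.congr_fun x.2 ⟨y, hy⟩⟩,
    fun x => ⟨⟨x.1, x.2.1⟩, AddMonoidHom.ext fun y => x.2.2 y.1 y.2⟩, fun _ => rfl, fun _ => rfl⟩

lemma card_Rad_comp {S : AddSubgroup L} (α : L →+ L) (hα : Function.Injective α)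
    (hl : ∀ x y, α ⁅x, y⁆ = ⁅α x, α y⁆) (h1 : ∀ x ∈ S, α x ∈ S) (h2 : ∀ y ∈ S, ∃ x ∈ S, α x = y)
    (f : L →+ TT) : Nat.card (Rad S (f.comp α)) = Nat.card (Rad S f) := by
  refine Nat.card_congr (Equiv.ofBijective (fun x => ⟨α x.1, h1 _ x.2.1, fun y hy => ?_⟩)
    ⟨fun x y h => Subtype.ext (hα (congrArg Subtype.val h)), fun y => ?_⟩)
  · obtain ⟨z, hz, rfl⟩ := h2 y hy
    rw [← hl]; exact x.2.2 z hz
  · obtain ⟨x, hx, h⟩ := h2 y.1 y.2.1
    refine ⟨⟨x, hx, fun z hz => ?_⟩, Subtype.ext h⟩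
    rw [AddMonoidHom.comp_apply, hl, h]
    exact y.2.2 _ (h1 z hz)

variable [Finite L]

lemma onto_of_maps {S : AddSubgroup L} (α : L →+ L) (hα : Function.Injective α)
    (h1 : ∀ x ∈ S, α x ∈ S) : ∀ y ∈ S, ∃ x ∈ S, α x = y :=
  ((Set.toFinite (S : Set L)).injOn_iff_bijOn_of_mapsTo h1).1 hα.injOn |>.surjOn

section laz
variable {G : Type} [Group G] (Z : Laz G L)
include Z

omit [Finite L] in
lemma Laz.exists_aut (s : L) : ∃ α : L →+ L, Function.Injective α ∧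
    (∀ x y, α ⁅x, y⁆ = ⁅α x, α y⁆) ∧ ∀ (x : L) (M M' : AddSubgroup L), M' ≤ M → ⁅s, x⁆ ∈ M →
      (∀ v ∈ M, ⁅v, s⁆ ∈ M') → (∀ v ∈ M, ⁅v, x⁆ ∈ M') → (∀ v ∈ M, ∀ u ∈ M, ⁅v, u⁆ ∈ M') →
      α x - x - ⁅s, x⁆ ∈ M' := by
  obtain ⟨g, rfl⟩ := Z.ℓ.surjective s
  refine ⟨Z.hom (MulAut.conj g).toMonoidHom,
    Z.ℓ.injective.comp ((MulAut.conj g).injective.comp Z.ℓ.symm.injective), Z.hom_lie _,
    fun x M M' hM h0 h1 h2 h3 => ?_⟩
  obtain ⟨h, rfl⟩ := Z.ℓ.surjective x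
  have h4 := evC_mem₁ Z.βc_nil M M' h0 hM h1 h2
  have h5 : Z.ℓ ⁅g, h⁆ ∈ M := by rw [Z.comm]; exact add_mem h0 (hM h4)
  have h6 := evC_mem Z.βm M' (h2 _ h5) (fun v hv => h3 v (hM hv) _ h5) fun v hv => h2 v (hM hv)
  rw [Z.hom_ℓ, show (MulAut.conj g).toMonoidHom h = ⁅g, h⁆ * h by simp [commutatorElement_def],
    Z.mul]
  generalize evC Z.βm (Z.ℓ ⁅g, h⁆) (Z.ℓ h) = z at h6 ⊢
  rw [Z.comm]
  convert add_mem h4 h6 using 1
  abel

omit [Finite L] in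
lemma Laz.exists_central {p K : ℕ} (hL : Nat.card L = p ^ K) {S A : AddSubgroup L}
    (hS : ∀ x ∈ S, ∀ y ∈ S, ⁅x, y⁆ ∈ S) (h : ¬ S ≤ A) :
    ∃ b ∈ S, b ∉ A ∧ p • b ∈ A ∧ ∀ y ∈ S, ⁅b, y⁆ ∈ A := by
  classical
  have h1 : ∃ k, S ⊓ Z.Φ k ≤ A := ⟨Z.c, by simp [Z.Φ_top]⟩
  obtain ⟨k, hk⟩ := Nat.exists_eq_succ_of_ne_zero (n := Nat.find h1)
    fun h0 => h (by simpa [h0, Z.Φ_zero] using Nat.find_spec h1)
  obtain ⟨x, hx, hxA⟩ := SetLike.not_le_iff_exists.1 (Nat.find_min h1 (hk ▸ Nat.lt_succ_self k))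
  have h2 : ∃ i, p ^ i • x ∈ A := ⟨K, by rw [← hL, card_nsmul_eq_zero']; exact zero_mem _⟩
  obtain ⟨i, hi⟩ := Nat.exists_eq_succ_of_ne_zero (n := Nat.find h2)
    fun h0 => hxA (by simpa [h0] using Nat.find_spec h2)
  refine ⟨p ^ i • x, nsmul_mem hx.1 _, Nat.find_min h2 (hi ▸ Nat.lt_succ_self i), ?_,
    fun y hy => ?_⟩
  · have := Nat.find_spec h2
    rwa [hi, pow_succ', mul_nsmul'] at this
  · rw [nsmul_lie]
    exact nsmul_mem ((hk ▸ Nat.find_spec h1 :) ⟨hS x hx.1 y hy, Z.Φ_lie k x hx.2 y⟩) _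

end laz

/-- density of the characters of a node with corank `j` -/
noncomputable def wt (p : ℕ) (S A : AddSubgroup L) (f : L →+ TT) (j : ℕ) : ℝ :=
  Sg A f (fun g => if Nat.card (Rad S g) = p ^ j * Nat.card A then 1 else 0) * Nat.card A /
    Nat.card L

/-- mean index of the ideal in the radical -/
noncomputable def Nn (S A : AddSubgroup L) (f : L →+ TT) : ℝ :=
  Sg A f (fun g => Nat.card (Rad S g)) / Nat.card L

theorem node_Qp (m : ℕ) : ∃ C : ℕ, ∀ (p : ℕ) [Fact p.Prime], m < p →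
    ∀ {L : Type} [LieRing L] [Finite L] {K : ℕ}, Nat.card L = p ^ K → Nat.card L ≤ p ^ m →
      ∀ {S A : AddSubgroup L} {f : L →+ TT}, Node S A f → Qp p C (wt p S A f) := by
  obtain ⟨C, hC⟩ := fj_gap m
  refine ⟨C, fun p hp hm L _ _ K hL hm' S A f h => ?_⟩
  have hpow : ∀ {n}, n ∣ Nat.card L → ∃ e, n = p ^ e := fun hn => by
    obtain ⟨e, -, he⟩ := (Nat.dvd_prime_pow hp.out).1 (hL ▸ hn)
    exact ⟨e, he⟩
  obtain ⟨k, hk⟩ := hpow S.card_addSubgroup_dvd_card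
  obtain ⟨l, hl⟩ := hpow A.index_dvd_card
  obtain ⟨a, ha⟩ := hpow A.card_addSubgroup_dvd_card
  obtain ⟨v₀, J, h1, h2, h3, h4⟩ := hC p hm ((card_dual S).trans hk)
    ((card_dual S).trans_le ((Nat.le_of_dvd Nat.card_pos S.card_addSubgroup_dvd_card).trans hm'))
    ((card_perp A).trans hl)
    ((card_perp A).trans_le ((Nat.le_of_dvd Nat.card_pos A.index_dvd_card).trans hm'))
    (obil S f) ((obil S).comp (perp A).subtype)
  simp only [AddMonoidHom.comp_apply, ← map_add, card_ker_bil, AddSubgroup.subtype_apply] at h1 h2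
  have hV : (0 : ℝ) < Nat.card (perp A) := by exact_mod_cast Nat.card_pos
  have hw : ∀ j, wt p S A f j =
      Nat.card {v : perp A // Nat.card (Rad S (f + v)) = p ^ j * Nat.card A} / Nat.card (perp A) := by
    intro j
    have : (0 : ℝ) < Nat.card A := by exact_mod_cast Nat.card_pos
    rw [wt, Sg_count A f fun g => Nat.card (Rad S g) = p ^ j * Nat.card A, ← A.index_mul_card,
      ← card_perp, Nat.cast_mul, mul_div_mul_right _ _ this.ne']
  obtain ⟨j₀, hj₀⟩ : ∃ j₀, Nat.card (Rad S (f + v₀)) = p ^ j₀ * Nat.card A := by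
    obtain ⟨e, he⟩ := hpow (Rad S (f + v₀)).card_addSubgroup_dvd_card
    have := AddSubgroup.card_le_of_le (h.le_Rad (g := f + v₀.1) (by simp))
    rw [he, ha, Nat.pow_le_pow_iff_right hp.out.one_lt] at this
    exact ⟨e - a, by rw [he, ha, ← pow_add, Nat.sub_add_cancel this]⟩
  intro j hj hj'
  obtain rfl : j = j₀ := by
    refine le_antisymm (not_lt.1 fun h5 => ?_) ?_
    · have : Nonempty {v : perp A // Nat.card (Rad S (f + v)) = p ^ j₀ * Nat.card A} := ⟨⟨v₀, hj₀⟩⟩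
      have h6 := hj j₀ h5
      rw [hw, div_eq_zero_iff, Nat.cast_eq_zero] at h6
      exact h6.elim Nat.card_pos.ne' hV.ne'
    · rw [hw, div_pos_iff_of_pos_right hV, Nat.cast_pos] at hj'
      obtain ⟨⟨v, hv⟩⟩ := (Nat.card_pos_iff.1 hj').1
      have h6 := h1 v
      rwa [hj₀, hv, Nat.mul_le_mul_right_iff Nat.card_pos,
        Nat.pow_le_pow_iff_right hp.out.one_lt] at h6
  have h5 : 1 - wt p S A f j = J / Nat.card (perp A) := by
    classical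
    have h6 := Nat.card_congr (Equiv.sumCompl fun v : perp A =>
      Nat.card (Rad S (f + v)) = p ^ j * Nat.card A)
    have h7 : ∀ v : perp A, ¬ Nat.card (Rad S (f + v)) = p ^ j * Nat.card A ↔
        Nat.card (Rad S (f + v₀)) < Nat.card (Rad S (f + v)) := fun v => by
      rw [← hj₀, (h1 v).lt_iff_ne, ne_comm]
    rw [Nat.card_sum, Nat.card_congr (Equiv.subtypeEquivRight h7), h2] at h6
    rw [hw, eq_div_iff hV.ne', sub_mul, div_mul_cancel₀ _ hV.ne', one_mul, ← h6]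
    simp
  rw [h5, ← mul_div_assoc, ← mul_div_assoc, div_le_iff₀ hV, div_le_iff₀ hV, le_div_iff₀ hV]
  exact ⟨by exact_mod_cast h3, h4.imp_left fun h => by exact_mod_cast h⟩

end Pool.Agent.P78
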